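import Pool.Agent.H71.HV.Targets2

set_option autoImplicit false

open Set Topology TopologicalSpace Filter

namespace Pool.Agent.H71.HV

universe u v

variable {G : Type u} {Y : Type v} [Group G] [MetricSpace G] [IsTopologicalGroup G]
    [TopologicalSpace Y] [MulAction G Y] [ContinuousSMul G Y]

lemma r6_aux (C : Ctx G Y) {P : Type} [Preorder P] (S : Stem P) (i : ℕ) (α : Ordinal.{0}) :
    ∀ (a b : P) (V Z : ℕ), C.Rel S a b V Z → ¬ C.Sep S α a b (C.tr i V) (C.tr i Z) := by
  induction α using WellFoundedLT.induction with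
  | _ α ih =>
    intro a b V Z hR hS
    rw [Ctx.sep_iff] at hS
    rcases hS with ⟨k, hk1, hk2⟩ | ⟨V', hV', hstep⟩
    · obtain ⟨p, q, z1, z2, hp0, hq0, hgp, -⟩ := C.exists_gpair S a b (I := Empty)
        (fun i _ => i.elim) (fun i _ => i.elim)
      have hz1 : Pre (S.stem a) z1 := by
        have := hgp.pre1 0
        rwa [hp0] at this
      obtain ⟨g, hg, hgU⟩ := hk1 z1 hz1
      rw [C.B_tr] at hg
      obtain ⟨v, hv, rfl⟩ := hg
      have hO : IsOpen ((fun y : Y => C.cen i • y) ⁻¹' C.U k) :=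
        (C.isOpen_U k).preimage (continuous_const_smul _)
      have hm : v • C.f z1 ∈ (fun y : Y => C.cen i • y) ⁻¹' C.U k := by
        change C.cen i • v • C.f z1 ∈ C.U k
        rw [smul_smul]
        exact hgU
      obtain ⟨k', hk'1, hk'2⟩ := C.exists_U hO hm
      obtain ⟨n, hn⟩ := Ctx.hit_forces hgp.unb1 hgp.pre1 (V := V) (k := k') ⟨v, hv, hk'1⟩
      have hpa : p n ≤ a := by
        rw [← hp0]
        exact hgp.anti1 (Nat.zero_le n)
      have hnn := (hR.mono_le hpa (le_refl b)).not_base hn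
      apply hnn
      intro r hr hf
      apply hk2 r hr
      intro z hz
      obtain ⟨w, hw, hw'⟩ := hf z hz
      refine ⟨C.cen i * w, ?_, ?_⟩
      · rw [C.B_tr]
        exact ⟨w, hw, rfl⟩
      · rw [mul_smul]
        exact hk'2 hw'
    · obtain ⟨v, hv⟩ := C.nonempty_B V'
      have hO : IsOpen ((fun g : G => C.cen i * g) ⁻¹' C.B V') :=
        (C.isOpen_B V').preimage (continuous_const_mul _)
      have hm : (C.cen i)⁻¹ * v ∈ (fun g : G => C.cen i * g) ⁻¹' C.B V' := by
        change C.cen i * ((C.cen i)⁻¹ * v) ∈ C.B V'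
        rwa [mul_inv_cancel_left]
      obtain ⟨V0, -, hV0⟩ := C.exists_token hO hm
      have hV0V : C.B V0 ⊆ C.B V := by
        intro g hg
        have := hV' (hV0 hg)
        rw [C.B_tr] at this
        obtain ⟨g', hg', he⟩ := this
        have : g' = g := mul_left_cancel he
        rwa [← this]
      obtain ⟨a', ha', b', hb', Z0, hZ0, hR'⟩ := hR.step hV0V
      have hZ' : C.B (C.tr i Z0) ⊆ C.B (C.tr i Z) := by
        rw [C.B_tr, C.B_tr]
        exact image_mono hZ0
      obtain ⟨a'', ha'', b'', hb'', β, hβ, hS⟩ := hstep a' ha' b' hb' _ hZ'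
      have hV0' : C.B (C.tr i V0) ⊆ C.B V' := by
        rw [C.B_tr]
        rintro _ ⟨g, hg, rfl⟩
        exact hV0 hg
      exact ih β hβ b'' a'' Z0 V0 (hR'.mono_le hb'' ha'') (hS.mono_token Subset.rfl hV0')

theorem r6 : R6Stmt.{u, v} := by
  intro G Y _ _ _ _ _ _ _ C P _ S a b i V Z hR a' ha' b' hb' α
  exact r6_aux C S i α a' b' V Z (hR.mono_le ha' hb')

end Pool.Agent.H71.HV
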