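import Pool.Agent.H71.HV.R5
import Pool.Agent.H71.HV.R6

set_option autoImplicit false

open Set Topology TopologicalSpace Filter

namespace Pool.Agent.H71.HV

universe u v

theorem sysAsm (hT : TStmt.{u, v}) (hR4 : R4Stmt.{u, v}) : SysStmt.{u, v} := by
  intro G Y _ _ _ _ _ _ _ C hP κ _ _ P _ _ L
  obtain ⟨w, hw⟩ := hT G Y C P L.toStem hP
  refine ⟨{
    toStem := L.toStem
    neg := C.Neg L.toStem
    neg_mono := fun h V k hn => hn.mono_le h
    neg_not := fun p V k hn hf => hn p le_rfl hf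
    dec0 := ?_
    lab := L.lab
    lab_mono := L.lab_mono
    dec := L.dec
    lmono := L.lmono
    rob := fun p D ξ => ∀ r ≤ p,
      (∀ e : ℚ, 0 < e → ∀ m, L.lab r (C.bt D.i D.r) (C.bt D.j (D.s + e)) = some m →
        lb ξ ≤ m) ∧
      ∀ m, L.lab r (C.bt D.i D.r1) (C.bt D.j (D.s + D.e)) = some m → m ≤ lb ξ
    rob_mono := fun h D ξ hr r hr' => hr r (hr'.trans h)
    rob_ex := L.rob
    rob_up := fun p D ξ hr e he m hm => (hr p le_rfl).1 e he m hm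
    rob_down := fun p D ξ hr m hm => (hr p le_rfl).2 m hm
    R := C.Rel L.toStem
    w0 := w
    R0 := hw
    R1 := fun ha hb V Z hR => hR.mono_le ha hb
    R2 := fun a b V Z V' hR hV' => hR.step hV'
    R3 := fun a b V Z k hR hf => hR.not_base hf
    R4 := fun a b V Z V1 Z1 l m h1 h2 h3 h4 => hR4 G Y C κ P L a b V Z V1 Z1 l m h1 h2 h3 h4
    N := fun a b V' Z => ∀ a'' ≤ a, ∀ b'' ≤ b, ∀ Z', C.B Z' ⊆ C.B Z →
      ¬ C.Rel L.toStem b'' a'' Z' V'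
    N_mono := fun ha hb V Z hN a'' ha'' b'' hb'' => hN a'' (ha''.trans ha) b'' (hb''.trans hb)
    N_not := fun a b V' Z Z' hN hZ' => hN a le_rfl b le_rfl Z' hZ'
    R5 := fun a b V Z => r5 G Y C P L.toStem a b V Z
    R6 := fun a b i V Z hR => r6 G Y C P L.toStem a b i V Z hR
    R7 := fun a b V Z V' Z' hV hZ hR => hR.mono_token hV hZ }⟩
  intro p V k
  by_cases h : ∃ q ≤ p, C.Forces (L.stem q) V k
  · obtain ⟨q, hq, h⟩ := h
    exact ⟨q, hq, Or.inl h⟩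
  · exact ⟨p, le_rfl, Or.inr fun q hq hf => h ⟨q, hq, hf⟩⟩

theorem mainAsm (hBdd : BddStmt.{u, v}) (hWM : WMStmt.{u, v}) (hSys : SysStmt.{u, v})
    (hTR : TRStmt.{u, v}) (hB1 : B1Stmt.{u, v}) (hF : FStmt.{u, v}) : MainStmt.{u, v} := by
  intro G Y _ _ _ _ _ _ _ _ hinv C hP hC
  have hunb : ∀ θ : Ordinal.{0}, θ.card ≤ Cardinal.aleph0 → ∃ z, ¬ C.Stb θ (C.f z) := by
    intro θ hθ
    by_contra hcon
    push Not at hcon
    rcases hBdd G Y C θ hθ hcon with h | h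
    · exact hP h
    · exact hC h
  let κ : Type := (Cardinal.beth (Ordinal.omega 1)).ord.ToType
  have hκ : Cardinal.beth (Ordinal.omega 1) ≤ Cardinal.mk κ := by
    rw [Cardinal.mk_ord_toType]
  obtain ⟨P, _, hne, ⟨L⟩⟩ := hWM G Y C hunb κ
  obtain ⟨Sy⟩ := hSys G Y C hP κ P L
  obtain ⟨J, _, P', _, hJ, hP', ⟨E⟩⟩ := hTR G Y C κ P hκ Sy
  obtain ⟨z, Δ, hz⟩ := hB1 G Y hinv C J P' E
  exact ⟨z, hF G Y hinv C J P' E z Δ hz⟩

end Pool.Agent.H71.HV
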