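import Pool.Agent.H71.HV.FIN
import Pool.Agent.H71.HV.SYS
import Pool.Agent.H15.HV.BK
import Pool.Agent.H15.HV.COL
import Pool.Agent.H15.HV.T
import Pool.Agent.H13.HV.TR
import Pool.Agent.H16.HV.PHI
import Pool.Agent.H16.HV.LOC
import Pool.Agent.H16.HV.WM
import Pool.Agent.H3.HV.F1
import Pool.Agent.H3.HV.F
import Pool.Agent.H3.HV.B1
import Pool.Agent.H46.HV.EM
import Pool.Agent.H48.HV.RK
import Pool.Agent.H48.HV.SI
import Pool.Agent.H48.HV.R4
import Pool.Agent.H57.HV.FR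
import Pool.Agent.H57.HV.EMB1
import Pool.Agent.H57.HV.EMB2
import Pool.Agent.H57.HV.CR
import Pool.Agent.H57.HV.MS
import Pool.Agent.H57.HV.BDD
import Pool.Agent.H73.HV.ER
import Pool.Agent.H73.HV.HOM
import Pool.Agent.H73.HV.SIL
import Pool.Agent.H73.HV.SIL1
import Pool.Agent.H73.HV.SIL2
import Pool.Agent.H87.HV.BF
import Pool.Agent.H87.HV.BO
import Pool.Agent.H87.HV.Game
import Pool.Agent.H87.HV.K

/-!
Assembly of the local Hjorth theorem.
-/

set_option autoImplicit false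

namespace Pool.Agent.H71.HV

universe u v

theorem orb_holds : OrbStmt.{u, v} := Pool.Agent.H87.HV.orbAsm Pool.Agent.H87.HV.bf

theorem main_holds : MainStmt.{u, v} := by
  have hMeas : MeasStmt.{u, v} := Pool.Agent.H57.HV.ms
  have hSil : SilverStmt := Pool.Agent.H73.HV.SIL Pool.Agent.H73.HV.SIL1 Pool.Agent.H73.HV.SIL2
  have hBdd : BddStmt.{u, v} := Pool.Agent.H57.HV.bdd orb_holds hMeas hSil
  have hWM : WMStmt.{u, v} := Pool.Agent.H16.HV.WM.wm_asm Pool.Agent.H87.HV.game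
    Pool.Agent.H48.HV.RK1 Pool.Agent.H48.HV.RK2
  have hSys : SysStmt.{u, v} := sysAsm Pool.Agent.H15.HV.t_holds Pool.Agent.H48.HV.R4
  have hTR : TRStmt.{u, v} :=
    Pool.Agent.H13.HV.TR (Pool.Agent.H46.HV.EM (Pool.Agent.H73.HV.HOM Pool.Agent.H73.HV.ER))
  have hB1 : B1Stmt.{u, v} :=
    B1 (Pool.Agent.H87.HV.kAsm Pool.Agent.H87.HV.bf) Pool.Agent.H16.HV.PHI
  have hF : FStmt.{u, v} := F F1 Pool.Agent.H16.HV.LOC Pool.Agent.H15.HV.col_holds
  exact mainAsm hBdd hWM hSys hTR hB1 hF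

/-- the local theorem of Hjorth -/
theorem localHjorth : FinStmt.{u, v} :=
  finAsm Pool.Agent.H15.HV.bk_holds Pool.Agent.H57.HV.fr
    (Pool.Agent.H57.HV.emb2 Pool.Agent.H57.HV.emb1) Pool.Agent.H57.HV.cr Pool.Agent.H48.HV.SI
    orb_holds Pool.Agent.H57.HV.ms main_holds

end Pool.Agent.H71.HV
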