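import Pool.Agent.H71.HV.Defs

/-!
Basic lemmas on tokens, `Hit`, `Le`, `Sep`, `Rel`.
-/

set_option autoImplicit false

open Set Topology TopologicalSpace Filter

namespace Pool.Agent.H71.HV

variable {G Y : Type*} [Group G] [MetricSpace G] [TopologicalSpace Y] [MulAction G Y]

/-- tokens form a base -/
lemma Frame.exists_ball (F : Frame G) {O : Set G} (hO : IsOpen O) {g : G} (hg : g ∈ O) :
    ∃ i, ∃ r : ℚ, 0 < r ∧ g ∈ F.B (F.bt i r) ∧ F.B (F.bt i r) ⊆ O := by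
  obtain ⟨ε, hε, hεO⟩ := Metric.isOpen_iff.1 hO g hg
  obtain ⟨i, hi⟩ := F.dense_cen.exists_dist_lt g (show (0 : ℝ) < ε / 2 by positivity)
  obtain ⟨r, hr1, hr2⟩ := exists_rat_btwn hi
  have hr0 : 0 < r := by
    have : (0 : ℝ) < r := lt_of_le_of_lt dist_nonneg hr1
    exact_mod_cast this
  refine ⟨i, r, hr0, ?_, ?_⟩
  · rw [F.B_bt i r hr0]
    exact hr1
  · rw [F.B_bt i r hr0]
    intro h hh
    apply hεO
    rw [Metric.mem_ball] at hh ⊢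
    calc dist h g ≤ dist h (F.cen i) + dist (F.cen i) g := dist_triangle _ _ _
      _ < ε / 2 + ε / 2 := by
        rw [dist_comm (F.cen i) g]
        linarith
      _ = ε := by ring

lemma Frame.exists_token (F : Frame G) {O : Set G} (hO : IsOpen O) {g : G} (hg : g ∈ O) :
    ∃ n, g ∈ F.B n ∧ F.B n ⊆ O := by
  obtain ⟨i, r, _, h1, h2⟩ := F.exists_ball hO hg
  exact ⟨_, h1, h2⟩

namespace Ctx

variable (C : Ctx G Y)

variable {C} in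
lemma Hit.mono {x : Y} {V W k : ℕ} (h : C.B V ⊆ C.B W) (hh : C.Hit x V k) : C.Hit x W k := by
  obtain ⟨g, hg, hg'⟩ := hh
  exact ⟨g, h hg, hg'⟩

lemma isOpen_U (k : ℕ) : IsOpen (C.U k) := C.base.isOpen ⟨k, rfl⟩

lemma exists_U {O : Set Y} (hO : IsOpen O) {y : Y} (hy : y ∈ O) :
    ∃ k, y ∈ C.U k ∧ C.U k ⊆ O := by
  obtain ⟨v, ⟨k, rfl⟩, h1, h2⟩ := C.base.exists_subset_of_mem_open hy hO
  exact ⟨k, h1, h2⟩

lemma isOpen_hit [ContinuousConstSMul G Y] (V k : ℕ) : IsOpen {x : Y | C.Hit x V k} := by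
  have : {x : Y | C.Hit x V k} = ⋃ g ∈ C.B V, (fun x => g • x) ⁻¹' C.U k := by
    ext x
    simp [Hit]
  rw [this]
  exact isOpen_biUnion fun g _ => (C.isOpen_U k).preimage (continuous_const_smul g)

variable {C}

lemma le_iff (α : Ordinal.{0}) (x : Y) (V : ℕ) (y : Y) (W : ℕ) :
    C.Le α x V y W ↔ (∀ k, C.Hit x V k → C.Hit y W k) ∧
      ∀ β < α, ∀ V', C.B V' ⊆ C.B V → ∃ W', C.B W' ⊆ C.B W ∧ C.Le β y W' x V' := by
  rw [Le]

lemma le_zero_iff (x : Y) (V : ℕ) (y : Y) (W : ℕ) :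
    C.Le 0 x V y W ↔ ∀ k, C.Hit x V k → C.Hit y W k := by
  rw [le_iff]
  constructor
  · exact fun h => h.1
  · exact fun h => ⟨h, fun β hβ => absurd hβ (by simp)⟩

lemma Le.hit {α : Ordinal.{0}} {x : Y} {V : ℕ} {y : Y} {W : ℕ} (h : C.Le α x V y W) (k : ℕ)
    (hk : C.Hit x V k) : C.Hit y W k := ((le_iff α x V y W).1 h).1 k hk

lemma Le.step {α : Ordinal.{0}} {x : Y} {V : ℕ} {y : Y} {W : ℕ} (h : C.Le α x V y W)
    {β : Ordinal.{0}} (hβ : β < α) {V' : ℕ} (hV' : C.B V' ⊆ C.B V) :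
    ∃ W', C.B W' ⊆ C.B W ∧ C.Le β y W' x V' := ((le_iff α x V y W).1 h).2 β hβ V' hV'

lemma Le.level {α β : Ordinal.{0}} {x : Y} {V : ℕ} {y : Y} {W : ℕ} (h : C.Le α x V y W)
    (hβ : β ≤ α) : C.Le β x V y W := by
  rw [le_iff] at h ⊢
  exact ⟨h.1, fun γ hγ => h.2 γ (lt_of_lt_of_le hγ hβ)⟩

lemma Le.mono {α : Ordinal.{0}} {x : Y} {V V' : ℕ} {y : Y} {W W' : ℕ} (h : C.Le α x V y W)
    (hV : C.B V' ⊆ C.B V) (hW : C.B W ⊆ C.B W') : C.Le α x V' y W' := by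
  rw [le_iff] at h ⊢
  refine ⟨fun k hk => (h.1 k (hk.mono hV)).mono hW, fun β hβ V'' hV'' => ?_⟩
  obtain ⟨W'', h1, h2⟩ := h.2 β hβ V'' (hV''.trans hV)
  exact ⟨W'', h1.trans hW, h2⟩

lemma Le.refl (α : Ordinal.{0}) (x : Y) (V : ℕ) : C.Le α x V x V := by
  induction α using WellFoundedLT.induction generalizing V with
  | _ α ih =>
    rw [le_iff]
    exact ⟨fun k hk => hk, fun β hβ V' hV' => ⟨V', hV', ih β hβ V'⟩⟩

lemma le_of_subset (α : Ordinal.{0}) (x : Y) {V W : ℕ} (h : C.B V ⊆ C.B W) :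
    C.Le α x V x W := (Le.refl α x V).mono Subset.rfl h

lemma Le.trans {α : Ordinal.{0}} {x : Y} {V : ℕ} {y : Y} {W : ℕ} {z : Y} {Z : ℕ}
    (h : C.Le α x V y W) (h' : C.Le α y W z Z) : C.Le α x V z Z := by
  induction α using WellFoundedLT.induction generalizing x V y W z Z with
  | _ α ih =>
    rw [le_iff] at h h' ⊢
    refine ⟨fun k hk => h'.1 k (h.1 k hk), fun β hβ V' hV' => ?_⟩
    obtain ⟨W', h1, h2⟩ := h.2 β hβ V' hV'
    obtain ⟨Z', h3, h4⟩ := h'.2 β hβ W' h1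
    exact ⟨Z', h3, ih β hβ h4 h2⟩

/-- if `y = k • x` and `B V k⁻¹ ⊆ B W` then `(x, V) ≤ (y, W)` at all levels -/
lemma le_of_smul [ContinuousMul G] (α : Ordinal.{0}) (x : Y) (k : G) {V W : ℕ}
    (h : ∀ v ∈ C.B V, v * k⁻¹ ∈ C.B W) : C.Le α x V (k • x) W := by
  induction α using WellFoundedLT.induction generalizing x k V W with
  | _ α ih =>
    rw [le_iff]
    refine ⟨?_, fun β hβ V' hV' => ?_⟩
    · rintro m ⟨v, hv, hv'⟩
      refine ⟨v * k⁻¹, h v hv, ?_⟩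
      rwa [smul_smul, inv_mul_cancel_right]
    · obtain ⟨v, hv⟩ := C.nonempty_B V'
      have hO : IsOpen ((fun g => g * k) ⁻¹' C.B V') :=
        (C.isOpen_B V').preimage (continuous_mul_const k)
      have hm : v * k⁻¹ ∈ (fun g => g * k) ⁻¹' C.B V' := by
        change v * k⁻¹ * k ∈ C.B V'
        rwa [inv_mul_cancel_right]
      obtain ⟨W', h1, h2⟩ := C.exists_token hO hm
      refine ⟨W', ?_, ?_⟩
      · intro g hg
        have := h (g * k) (hV' (h2 hg))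
        rwa [mul_inv_cancel_right] at this
      · have := ih β hβ (k • x) k⁻¹ (V := W') (W := V') (fun v hv => by
          rw [inv_inv]
          exact h2 hv)
        rwa [inv_smul_smul] at this

/-- limit of shrinking sequences -/
lemma smul_eq_of_shrink [T2Space Y] [ContinuousSMul G Y] {x y : Y} {g h : G} (V W : ℕ → ℕ)
    (hV : ∀ O : Set G, IsOpen O → g ∈ O → ∃ N, ∀ n ≥ N, C.B (V n) ⊆ O)
    (hW : ∀ O : Set G, IsOpen O → h ∈ O → ∃ N, ∀ n ≥ N, C.B (W n) ⊆ O)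
    (hle : ∀ n, ∀ k, C.Hit x (V n) k → C.Hit y (W n) k) : g • x = h • y := by
  by_contra hne
  obtain ⟨O1, O2, ho1, ho2, hm1, hm2, hd⟩ := t2_separation hne
  obtain ⟨N1, h1⟩ := hV ((fun a : G => a • x) ⁻¹' O1)
    (ho1.preimage (continuous_id.smul continuous_const)) hm1
  obtain ⟨N2, h2⟩ := hW ((fun a : G => a • y) ⁻¹' O2)
    (ho2.preimage (continuous_id.smul continuous_const)) hm2
  set n := max N1 N2
  obtain ⟨v, hv⟩ := C.nonempty_B (V n)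
  have hv1 : v • x ∈ O1 := h1 n (le_max_left _ _) hv
  obtain ⟨k, hk1, hk2⟩ := C.exists_U ho1 hv1
  obtain ⟨w, hw, hw'⟩ := hle n k ⟨v, hv, hk1⟩
  exact hd.le_bot ⟨hk2 hw', h2 n (le_max_right _ _) hw⟩

/-- `≤₀` means inclusion in the closure -/
lemma closure_of_hit {x y : Y} {V W : ℕ} (h : ∀ k, C.Hit x V k → C.Hit y W k) {g : G}
    (hg : g ∈ C.B V) : g • x ∈ closure ((fun a : G => a • y) '' C.B W) := by
  rw [mem_closure_iff]
  intro O hO hm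
  obtain ⟨k, hk1, hk2⟩ := C.exists_U hO hm
  obtain ⟨w, hw, hw'⟩ := h k ⟨g, hg, hk1⟩
  exact ⟨w • y, hk2 hw', w, hw, rfl⟩

/-! ### separation -/

variable {P : Type} [Preorder P] {S : Stem P}

lemma Forces.mono_stem {s t : List ℕ} (h : s <+: t) {V k : ℕ} (hf : C.Forces s V k) :
    C.Forces t V k := by
  intro z hz
  apply hf z
  intro i hi
  have := hz i (lt_of_lt_of_le hi h.length_le)
  rw [← this]
  exact List.IsPrefix.getElem h hi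

lemma Forces.mono_token {s : List ℕ} {V W k : ℕ} (h : C.B V ⊆ C.B W) (hf : C.Forces s V k) :
    C.Forces s W k := fun z hz => (hf z hz).mono h

lemma Neg.mono_le {p q : P} (h : q ≤ p) {V k : ℕ} (hn : C.Neg S p V k) : C.Neg S q V k :=
  fun r hr => hn r (hr.trans h)

lemma Neg.mono_token {p : P} {V W k : ℕ} (h : C.B V ⊆ C.B W) (hn : C.Neg S p W k) :
    C.Neg S p V k := fun r hr hf => hn r hr (hf.mono_token h)

lemma sep_iff (α : Ordinal.{0}) (a b : P) (V Z : ℕ) : C.Sep S α a b V Z ↔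
    (∃ k, C.Forces (S.stem a) V k ∧ C.Neg S b Z k) ∨
    ∃ V', C.B V' ⊆ C.B V ∧ ∀ a' ≤ a, ∀ b' ≤ b, ∀ Z', C.B Z' ⊆ C.B Z →
      ∃ a'' ≤ a', ∃ b'' ≤ b', ∃ β < α, C.Sep S β b'' a'' Z' V' := by
  rw [Sep]
  simp only [exists_prop]

lemma Sep.level {α β : Ordinal.{0}} {a b : P} {V Z : ℕ} (h : C.Sep S α a b V Z) (hαβ : α ≤ β) :
    C.Sep S β a b V Z := by
  rw [sep_iff] at h ⊢
  rcases h with h | ⟨V', h1, h2⟩
  · exact Or.inl h
  · refine Or.inr ⟨V', h1, fun a' ha' b' hb' Z' hZ' => ?_⟩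
    obtain ⟨a'', ha'', b'', hb'', γ, hγ, h3⟩ := h2 a' ha' b' hb' Z' hZ'
    exact ⟨a'', ha'', b'', hb'', γ, lt_of_lt_of_le hγ hαβ, h3⟩

lemma Sep.mono_le {α : Ordinal.{0}} {a b a' b' : P} {V Z : ℕ} (h : C.Sep S α a b V Z)
    (ha : a' ≤ a) (hb : b' ≤ b) : C.Sep S α a' b' V Z := by
  rw [sep_iff] at h ⊢
  rcases h with ⟨k, h1, h2⟩ | ⟨V', h1, h2⟩
  · exact Or.inl ⟨k, h1.mono_stem (S.stem_mono ha), h2.mono_le hb⟩
  · exact Or.inr ⟨V', h1, fun a'' ha'' b'' hb'' => h2 a'' (ha''.trans ha) b'' (hb''.trans hb)⟩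

lemma Sep.mono_token {α : Ordinal.{0}} {a b : P} {V Z V' Z' : ℕ} (h : C.Sep S α a b V Z)
    (hV : C.B V ⊆ C.B V') (hZ : C.B Z' ⊆ C.B Z) : C.Sep S α a b V' Z' := by
  rw [sep_iff] at h ⊢
  rcases h with ⟨k, h1, h2⟩ | ⟨V'', h1, h2⟩
  · exact Or.inl ⟨k, h1.mono_token hV, h2.mono_token hZ⟩
  · exact Or.inr ⟨V'', h1.trans hV, fun a' ha' b' hb' Z'' hZ'' => h2 a' ha' b' hb' Z''
      (hZ''.trans hZ)⟩

/-- the step constructor for `∃ α, Sep α` -/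
lemma sep_step {a b : P} {V Z V' : ℕ} (hV' : C.B V' ⊆ C.B V)
    (h : ∀ a' ≤ a, ∀ b' ≤ b, ∀ Z', C.B Z' ⊆ C.B Z →
      ∃ a'' ≤ a', ∃ b'' ≤ b', ∃ α, C.Sep S α b'' a'' Z' V') : ∃ α, C.Sep S α a b V Z := by
  classical
  have h' : ∀ t : P × P × ℕ, ∃ α : Ordinal.{0}, t.1 ≤ a → t.2.1 ≤ b → C.B t.2.2 ⊆ C.B Z →
      ∃ a'' ≤ t.1, ∃ b'' ≤ t.2.1, C.Sep S α b'' a'' t.2.2 V' := by
    rintro ⟨a', b', Z'⟩
    by_cases hc : a' ≤ a ∧ b' ≤ b ∧ C.B Z' ⊆ C.B Z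
    · obtain ⟨a'', h1, b'', h2, α, h3⟩ := h a' hc.1 b' hc.2.1 Z' hc.2.2
      exact ⟨α, fun _ _ _ => ⟨a'', h1, b'', h2, h3⟩⟩
    · exact ⟨0, fun h1 h2 h3 => absurd ⟨h1, h2, h3⟩ hc⟩
  choose g hg using h'
  refine ⟨Order.succ (⨆ t, g t), ?_⟩
  rw [sep_iff]
  refine Or.inr ⟨V', hV', fun a' ha' b' hb' Z' hZ' => ?_⟩
  obtain ⟨a'', h1, b'', h2, h3⟩ := hg (a', b', Z') ha' hb' hZ'
  exact ⟨a'', h1, b'', h2, g (a', b', Z'),
    Order.lt_succ_of_le (Ordinal.le_iSup g (a', b', Z')), h3⟩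

lemma Rel.mono_le {a b a' b' : P} {V Z : ℕ} (h : C.Rel S a b V Z) (ha : a' ≤ a) (hb : b' ≤ b) :
    C.Rel S a' b' V Z := fun a'' ha'' b'' hb'' => h a'' (ha''.trans ha) b'' (hb''.trans hb)

lemma Rel.mono_token {a b : P} {V Z V' Z' : ℕ} (h : C.Rel S a b V Z)
    (hV : C.B V' ⊆ C.B V) (hZ : C.B Z ⊆ C.B Z') : C.Rel S a b V' Z' :=
  fun a' ha' b' hb' α hs => h a' ha' b' hb' α (hs.mono_token hV hZ)

lemma Rel.step {a b : P} {V Z : ℕ} (h : C.Rel S a b V Z) {V' : ℕ} (hV' : C.B V' ⊆ C.B V) :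
    ∃ a' ≤ a, ∃ b' ≤ b, ∃ Z', C.B Z' ⊆ C.B Z ∧ C.Rel S b' a' Z' V' := by
  by_contra hcon
  push Not at hcon
  obtain ⟨α, hα⟩ := sep_step (S := S) (a := a) (b := b) (Z := Z) hV' (fun a' ha' b' hb' Z' hZ' => by
    have := hcon a' ha' b' hb' Z' hZ'
    unfold Rel at this
    push Not at this
    obtain ⟨b'', hb'', a'', ha'', α, hs⟩ := this
    exact ⟨a'', ha'', b'', hb'', α, hs⟩)
  exact h a le_rfl b le_rfl α hα

lemma Rel.not_base {a b : P} {V Z : ℕ} (h : C.Rel S a b V Z) {k : ℕ}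
    (hf : C.Forces (S.stem a) V k) : ¬ C.Neg S b Z k := fun hn =>
  h a le_rfl b le_rfl 0 ((sep_iff 0 a b V Z).2 (Or.inl ⟨k, hf, hn⟩))

end Ctx

end Pool.Agent.H71.HV
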