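import Pool.Agent.H71.HV.Targets2

set_option autoImplicit false

open Set Topology TopologicalSpace Filter

namespace Pool.Agent.H71.HV

universe u v

/-- A covering of the infinite symmetric group by boxes. -/
lemma infinite_orbit_aux {A : Set ℕ} (hA : A.Infinite) (E : ℕ → ℕ → Set ℕ)
    (hE : ∀ k, ∀ a ∈ A, (E k a).Finite) :
    ∃ p : Equiv.Perm ℕ, ∀ k, ∃ a ∈ A, p a ∉ E k a := by
  classical
  -- next `a`
  have h1 : ∀ n : ℕ, ∃ a ∈ A, n < a := fun n => hA.exists_gt n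
  choose na hna1 hna2 using h1
  have h2 : ∀ (k a : ℕ), ∃ b, a < b ∧ (a ∈ A → b ∉ E k a) := by
    intro k a
    by_cases ha : a ∈ A
    · obtain ⟨b, hb1, hb2⟩ := ((hE k a ha).infinite_compl).exists_gt a
      exact ⟨b, hb2, fun _ => hb1⟩
    · exact ⟨a + 1, Nat.lt_succ_self a, fun h => absurd h ha⟩
  choose nb hnb1 hnb2 using h2
  -- the sequence of pairs
  let s : ℕ → ℕ × ℕ := fun n => Nat.rec (na 0, nb 0 (na 0))
    (fun k x => (na x.2, nb (k + 1) (na x.2))) n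
  have hs0 : s 0 = (na 0, nb 0 (na 0)) := rfl
  have hs : ∀ k, s (k + 1) = (na (s k).2, nb (k + 1) (na (s k).2)) := fun k => rfl
  have hmem : ∀ k, (s k).1 ∈ A := by
    intro k
    cases k with
    | zero => exact hna1 0
    | succ k => rw [hs]; exact hna1 _
  have hlt : ∀ k, (s k).1 < (s k).2 := by
    intro k
    cases k with
    | zero => exact hnb1 0 _
    | succ k => rw [hs]; exact hnb1 _ _
  have hout : ∀ k, (s k).2 ∉ E k (s k).1 := by
    intro k
    cases k with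
    | zero => exact hnb2 0 _ (hna1 0)
    | succ k => rw [hs]; exact hnb2 _ _ (hna1 _)
  have hnext : ∀ k, (s k).2 < (s (k + 1)).1 := by
    intro k
    rw [hs]
    exact hna2 _
  have hmono : ∀ k l, k < l → (s k).2 < (s l).1 := by
    intro k l hkl
    induction l with
    | zero => omega
    | succ l ih =>
      rcases Nat.lt_succ_iff_lt_or_eq.1 hkl with h | rfl
      · exact (ih h).trans ((hlt l).trans (hnext l))
      · exact hnext _
  let ι : ℕ × Bool → ℕ := fun x => if x.2 then (s x.1).2 else (s x.1).1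
  have hι : Function.Injective ι := by
    rintro ⟨k, b⟩ ⟨l, c⟩ h
    have hkl : k = l := by
      rcases lt_trichotomy k l with h' | h' | h'
      · have h3 := hmono k l h'
        have h4 := hlt k
        have h5 := hlt l
        simp only [ι] at h
        cases b <;> cases c <;> simp at h <;> omega
      · exact h'
      · have h3 := hmono l k h'
        have h4 := hlt k
        have h5 := hlt l
        simp only [ι] at h
        cases b <;> cases c <;> simp at h <;> omega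
    subst hkl
    have h4 := hlt k
    simp only [ι] at h
    cases b <;> cases c <;> simp at h ⊢ <;> omega
  let e : Equiv.Perm (ℕ × Bool) := (Equiv.refl ℕ).prodCongr Equiv.boolNot
  refine ⟨e.viaEmbedding ⟨ι, hι⟩, fun k => ⟨(s k).1, hmem k, ?_⟩⟩
  have h6 : e.viaEmbedding ⟨ι, hι⟩ ((⟨ι, hι⟩ : (ℕ × Bool) ↪ ℕ) (k, false)) =
      (⟨ι, hι⟩ : (ℕ × Bool) ↪ ℕ) (e (k, false)) := Equiv.Perm.viaEmbedding_apply _ _ _
  have h7 : (⟨ι, hι⟩ : (ℕ × Bool) ↪ ℕ) (k, false) = (s k).1 := by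
    simp [ι]
  have h8 : (⟨ι, hι⟩ : (ℕ × Bool) ↪ ℕ) (e (k, false)) = (s k).2 := by
    simp [ι, e]
  rw [h7, h8] at h6
  rw [h6]
  exact hout k

/-- every left Cauchy sequence of `K` converges in `G` -/
def LeftComplete {G : Type*} [Group G] [TopologicalSpace G] (K : Subgroup G) : Prop :=
  ∀ g : ℕ → G, (∀ n, g n ∈ K) →
    (∀ U ∈ 𝓝 (1 : G), ∃ N, ∀ m ≥ N, ∀ n ≥ N, (g m)⁻¹ * g n ∈ U) → ∃ a, Tendsto g atTop (𝓝 a)

lemma not_sdivides_of_leftComplete_aux {G : Type u} [Group G] [MetricSpace G]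
    [IsTopologicalGroup G] [SecondCountableTopology G] (hR : RInv G) (K : Subgroup G)
    (hK : LeftComplete K) : ¬ SDivides K := by
  classical
  rintro ⟨H, hHK, hcl, φ, hφ, ho⟩
  -- neighbourhoods
  let V : ℕ → Set G := fun n => {u | dist 1 u⁻¹ < (1 / 2 : ℝ) ^ n}
  have hV : ∀ n, IsOpen (V n) := fun n =>
    isOpen_lt (continuous_const.dist continuous_inv) continuous_const
  have hV1 : ∀ n, (1 : G) ∈ V n := by
    intro n
    change dist 1 (1 : G)⁻¹ < (1 / 2 : ℝ) ^ n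
    rw [inv_one, dist_self]
    positivity
  -- the finite sets
  let orb : ℕ → ℕ → Set ℕ := fun n a => {m | ∃ u : H, (u : G) ∈ V n ∧ (φ u)⁻¹ a = m}
  have hfin : ∀ n, {a | (orb n a).Finite}.Finite := by
    intro n
    by_contra hcon
    have hinf : {a | (orb n a).Finite}.Infinite := hcon
    have : Nonempty H := ⟨1⟩
    obtain ⟨h, hd⟩ := exists_dense_seq H
    obtain ⟨p, hp⟩ := infinite_orbit_aux hinf (fun k a => (fun m => (φ (h k))⁻¹ m) '' orb n a)
      (fun k a ha => Set.Finite.image _ ha)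
    obtain ⟨y, hy⟩ := hφ p⁻¹
    -- `y = u * h k`
    have hO : IsOpen {x : H | (y : G) * (x : G)⁻¹ ∈ V n} := by
      refine (hV n).preimage ?_
      fun_prop
    have hne : {x : H | (y : G) * (x : G)⁻¹ ∈ V n}.Nonempty := ⟨y, by
      change (y : G) * (y : G)⁻¹ ∈ V n
      rw [mul_inv_cancel]
      exact hV1 n⟩
    obtain ⟨k, hk⟩ := hd.exists_mem_open hO hne
    obtain ⟨a, ha, hpa⟩ := hp k
    apply hpa
    refine ⟨(φ (y * (h k)⁻¹))⁻¹ a, ⟨y * (h k)⁻¹, hk, rfl⟩, ?_⟩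
    have h9 : (φ (h k))⁻¹ * (φ (y * (h k)⁻¹))⁻¹ = p := by
      rw [← mul_inv_rev, ← map_mul, inv_mul_cancel_right, hy, inv_inv]
    change ((φ (h k))⁻¹ * (φ (y * (h k)⁻¹))⁻¹) a = p a
    rw [h9]
  -- recursion
  let Q : ℕ → Type _ := fun n => {x : H × ℕ // ¬ (orb n x.2).Finite}
  have hstart : Nonempty (Q 0) := by
    obtain ⟨a, ha⟩ := (hfin 0).infinite_compl.nonempty
    exact ⟨⟨(1, a), ha⟩⟩
  have hstep : ∀ n (x : Q n), ∃ y : Q (n + 1), ∃ u : H, (u : G) ∈ V n ∧ y.1.1 = x.1.1 * u ∧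
      y.1.2 = (φ u)⁻¹ x.1.2 ∧ n < y.1.2 := by
    intro n x
    have hinf : (orb n x.1.2).Infinite := x.2
    obtain ⟨m, hm1, hm2⟩ := (hinf.sdiff ((hfin (n + 1)).union (Set.finite_le_nat n))).nonempty
    obtain ⟨u, hu, hum⟩ := hm1
    refine ⟨⟨(x.1.1 * u, m), fun hf => hm2 (Or.inl hf)⟩, u, hu, rfl, hum.symm, ?_⟩
    by_contra hle
    exact hm2 (Or.inr (not_lt.1 hle))
  choose st hst using hstep
  obtain ⟨q0⟩ := hstart
  let q : ∀ n, Q n := fun n => Nat.rec q0 (fun k x => st k x) n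
  have hq : ∀ n, q (n + 1) = st n (q n) := fun n => rfl
  let g : ℕ → H := fun n => (q n).1.1
  have hg : ∀ n, ∃ u : H, (u : G) ∈ V n ∧ g (n + 1) = g n * u ∧
      (q (n + 1)).1.2 = (φ u)⁻¹ (q n).1.2 ∧ n < (q (n + 1)).1.2 := fun n => hst n (q n)
  have ha0 : ∀ n, (q n).1.2 = (φ ((g 0)⁻¹ * g n))⁻¹ (q 0).1.2 := by
    intro n
    induction n with
    | zero => simp
    | succ n ih =>
      obtain ⟨u, -, h1, h2, -⟩ := hg n
      rw [h2, ih, h1, ← mul_assoc, map_mul φ _ u, mul_inv_rev]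
      rfl
  -- Cauchy
  have hd : ∀ n, dist ((g n : G)⁻¹) ((g (n + 1) : G)⁻¹) < (1 / 2 : ℝ) ^ n := by
    intro n
    obtain ⟨u, h1, h2, -, -⟩ := hg n
    rw [h2]
    have h3 : ((g n * u : H) : G)⁻¹ = (u : G)⁻¹ * (g n : G)⁻¹ := by
      rw [Subgroup.coe_mul, mul_inv_rev]
    have h4 : dist ((g n : G)⁻¹) ((u : G)⁻¹ * (g n : G)⁻¹) = dist 1 ((u : G)⁻¹) := by
      have := hR 1 ((u : G)⁻¹) ((g n : G)⁻¹)
      rwa [one_mul] at this
    rw [h3, h4]
    exact h1
  have hcs : CauchySeq fun n => (g n : G)⁻¹ :=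
    cauchySeq_of_le_geometric (1 / 2) 1 (by norm_num) fun n => by
      rw [one_mul]
      exact (hd n).le
  obtain ⟨a, ha⟩ := hK (fun n => (g n : G)) (fun n => hHK (g n).2) (by
    intro U hU
    obtain ⟨ε, hε, hεU⟩ := Metric.mem_nhds_iff.1 hU
    obtain ⟨N, hN⟩ := Metric.cauchySeq_iff.1 hcs ε hε
    refine ⟨N, fun m hm n hn => hεU ?_⟩
    rw [Metric.mem_ball]
    have h3 := hN m hm n hn
    have h4 := hR ((g m : G)⁻¹) ((g n : G)⁻¹) (g n : G)
    rw [inv_mul_cancel] at h4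
    rw [h4]
    exact h3)
  have haH : a ∈ H := hcl.mem_of_tendsto ha (Eventually.of_forall fun n => (g n).2)
  have ha' : Tendsto g atTop (𝓝 (⟨a, haH⟩ : H)) := by
    rw [tendsto_subtype_rng]
    exact ha
  -- the point `a0` under the limit
  set b : ℕ := (q 0).1.2 with hb
  set m : ℕ := (φ ((g 0)⁻¹ * ⟨a, haH⟩))⁻¹ b with hm
  have hm' : φ ⟨a, haH⟩ m = φ (g 0) b := by
    rw [hm, map_mul, mul_inv_rev, map_inv, inv_inv]
    change (φ ⟨a, haH⟩ * ((φ ⟨a, haH⟩)⁻¹ * φ (g 0))) b = φ (g 0) b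
    rw [mul_inv_cancel_left]
  have hev : ∀ᶠ n in atTop, φ (g n) m = φ (g 0) b :=
    ha'.eventually ((ho m (φ (g 0) b)).mem_nhds hm')
  obtain ⟨N, hN⟩ := eventually_atTop.1 hev
  set n := max N m with hn
  have h5 := hN (n + 1) ((le_max_left _ _).trans (Nat.le_succ _))
  obtain ⟨u, -, -, -, h6⟩ := hg n
  have h7 : (q (n + 1)).1.2 = m := by
    rw [ha0 (n + 1), map_mul, mul_inv_rev, map_inv, inv_inv]
    change ((φ (g (n + 1)))⁻¹ * φ (g 0)) b = m
    change (φ (g (n + 1)))⁻¹ (φ (g 0) b) = m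
    rw [← h5]
    exact Equiv.symm_apply_apply _ _
  have h8 : m ≤ n := le_max_right _ _
  omega

lemma not_sdivides_of_solvable {G : Type u} [Group G] [TopologicalSpace G] (K : Subgroup G)
    (hK : Group.IsSolvable K) : ¬ SDivides K := by
  rintro ⟨H, hHK, -, φ, hφ, -⟩
  have h1 : Group.IsSolvable H :=
    Group.isSolvable_of_isSolvable_injective (Subgroup.inclusion_injective hHK)
  have h2 : Group.IsSolvable (Equiv.Perm ℕ) := Group.isSolvable_of_surjective hφ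
  exact Equiv.Perm.not_isSolvable ℕ (by simp) h2

end Pool.Agent.H71.HV
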