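import Mathlib

/-!
# Local Hjorth theorem: definitions

`G` is a group with a right-invariant metric (compatible with a Polish group topology), `Y` is a
Polish `G`-space, `f : (ℕ → ℕ) → Y` is continuous with `G`-invariant range `A`.
The topological Vaught conjecture for `A` is reduced to the stabilisers of the points of `A`.
-/

set_option autoImplicit false

open Set Topology TopologicalSpace

namespace Pool.Agent.H71.HV

/-- A right-invariant metric. -/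
def RInv (G : Type*) [Group G] [MetricSpace G] : Prop :=
  ∀ a b c : G, dist (a * c) (b * c) = dist a b

/-- `K` is divisible by the infinite symmetric group: a closed subgroup of `G` contained in `K`
maps continuously onto `Equiv.Perm ℕ` (topology of pointwise convergence). -/
def SDivides {G : Type*} [Group G] [TopologicalSpace G] (K : Subgroup G) : Prop :=
  ∃ H : Subgroup G, H ≤ K ∧ IsClosed (H : Set G) ∧
    ∃ φ : H →* Equiv.Perm ℕ, Function.Surjective φ ∧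
      ∀ n : ℕ, ∀ m : ℕ, IsOpen {h : H | φ h n = m}

/-- Tokens: a countable family `B n` of nonempty open subsets of `G`, containing all balls
`ball (cen i) r` with `r` rational, closed under left translation by the `cen i`. -/
structure Frame (G : Type*) [Group G] [MetricSpace G] where
  B : ℕ → Set G
  top : ℕ
  cen : ℕ → G
  bt : ℕ → ℚ → ℕ
  tr : ℕ → ℕ → ℕ
  isOpen_B : ∀ n, IsOpen (B n)
  nonempty_B : ∀ n, (B n).Nonempty
  B_top : B top = univ
  dense_cen : DenseRange cen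
  B_bt : ∀ i (r : ℚ), 0 < r → B (bt i r) = Metric.ball (cen i) (r : ℝ)
  B_tr : ∀ i n, B (tr i n) = (fun g => cen i * g) '' B n

/-- Context: frame, a countable base `U k` of `Y`, and the continuous map `f` with invariant
range. -/
structure Ctx (G Y : Type*) [Group G] [MetricSpace G] [TopologicalSpace Y] [MulAction G Y] extends
    Frame G where
  U : ℕ → Set Y
  base : IsTopologicalBasis (range U)
  f : (ℕ → ℕ) → Y
  cont : Continuous f
  inv : ∀ (g : G) z, ∃ z', f z' = g • f z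

/-- `s` is an initial segment of `z` -/
def Pre (s : List ℕ) (z : ℕ → ℕ) : Prop := ∀ i (h : i < s.length), s[i] = z i

/-- labels: `⊥` (not even `≤₀`), `ξ : J` (exactly `ξ`), `⊤` (at least all levels of `J`) -/
abbrev Lab (J : Type) := WithBot (WithTop J)

/-- the label `ξ` -/
def lb {J : Type} (ξ : J) : Lab J := ((ξ : WithTop J) : WithBot (WithTop J))

/-- a type with preorder and a stem map into finite sequences -/
structure Stem (P : Type) [Preorder P] where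
  stem : P → List ℕ
  stem_mono : ∀ {p q : P}, q ≤ p → stem p <+: stem q
  stem_ext : ∀ (p : P) (n : ℕ), ∃ q ≤ p, n ≤ (stem q).length

/-- data of a robust pair: balls `V = ball (cen i) r ⊇ V₁ = ball (cen i) r₁`,
`W = ball (cen j) s`, `e > 0` -/
structure RD where
  i : ℕ
  j : ℕ
  r : ℚ
  r1 : ℚ
  s : ℚ
  e : ℚ

def RD.Valid (D : RD) : Prop := 0 < D.r1 ∧ D.r1 < D.r ∧ 0 < D.s ∧ 0 < D.e

variable {G Y : Type*} [Group G] [MetricSpace G] [TopologicalSpace Y] [MulAction G Y]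

namespace Ctx

variable (C : Ctx G Y)

/-- `B V • x` meets `U k` -/
def Hit (x : Y) (V k : ℕ) : Prop := ∃ g ∈ C.B V, g • x ∈ C.U k

/-- Hjorth's relations `(x, V) ≤_α (y, W)` -/
def Le (α : Ordinal.{0}) (x : Y) (V : ℕ) (y : Y) (W : ℕ) : Prop :=
  (∀ k, C.Hit x V k → C.Hit y W k) ∧
    ∀ β, ∀ _ : β < α, ∀ V', C.B V' ⊆ C.B V → ∃ W', C.B W' ⊆ C.B W ∧ Le β y W' x V'
termination_by α

/-- `x` is stable at level `β` (its rank is at most `β`) -/
def Stb (β : Ordinal.{0}) (x : Y) : Prop :=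
  ∀ i j (r s : ℚ), 0 < r → 0 < s →
    (∀ e : ℚ, 0 < e → C.Le β x (C.bt i r) x (C.bt j (s + e))) →
    ∀ e : ℚ, 0 < e → C.Le (β + 1) x (C.bt i r) x (C.bt j (s + e))

/-- every point with initial segment `s` satisfies `Hit` -/
def Forces (s : List ℕ) (V k : ℕ) : Prop := ∀ z, Pre s z → C.Hit (C.f z) V k

/-- there are perfectly many orbits in `A = range f` -/
def Perfect : Prop :=
  ∃ F : (ℕ → Bool) → (ℕ → ℕ), Continuous F ∧
    ∀ u v, u ≠ v → ∀ g : G, g • C.f (F u) ≠ C.f (F v)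

variable {P : Type} [Preorder P] (S : Stem P)

/-- no extension of `p` forces `Hit` -/
def Neg (p : P) (V k : ℕ) : Prop := ∀ q ≤ p, ¬ C.Forces (S.stem q) V k

/-- separation of rank `α`: every generic pair through `(a, b)` refutes `(x_a, V) ≤ (x_b, Z)` -/
def Sep (α : Ordinal.{0}) (a b : P) (V Z : ℕ) : Prop :=
  (∃ k, C.Forces (S.stem a) V k ∧ C.Neg S b Z k) ∨
    ∃ V', C.B V' ⊆ C.B V ∧ ∀ a' ≤ a, ∀ b' ≤ b, ∀ Z', C.B Z' ⊆ C.B Z →
      ∃ a'' ≤ a', ∃ b'' ≤ b', ∃ β, ∃ _ : β < α, Sep β b'' a'' Z' V'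
termination_by α

/-- `(x_a, V) ≤ (x_b, Z)` is forced by `(a, b)` -/
def Rel (a b : P) (V Z : ℕ) : Prop := ∀ a' ≤ a, ∀ b' ≤ b, ∀ α, ¬ C.Sep S α a' b' V Z

end Ctx

/-- Labelled poset over the linear order `J`. -/
structure LP (C : Ctx G Y) (J : Type) [LinearOrder J] (P : Type) [Preorder P] extends Stem P where
  lab : P → ℕ → ℕ → Option (Lab J)
  lab_mono : ∀ {p q : P}, q ≤ p → ∀ V W l, lab p V W = some l → lab q V W = some l
  dec : ∀ p V W, ∃ q ≤ p, ∃ l, lab q V W = some l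
  up : ∀ p V W l (η : J), lab p V W = some l → lb η < l → ∀ V', C.B V' ⊆ C.B V →
    ∃ q ≤ p, ∃ W', C.B W' ⊆ C.B W ∧ ∃ m, lab q W' V' = some m ∧ lb η ≤ m
  down : ∀ p V W (ξ : J), lab p V W = some (lb ξ) → ∃ q ≤ p, ∃ V', C.B V' ⊆ C.B V ∧
    ∀ r ≤ q, ∀ W', C.B W' ⊆ C.B W → ∀ m, lab r W' V' = some m → m < lb ξ
  bot : ∀ p V W, lab p V W = some ⊥ →
    ∃ q ≤ p, ∃ k, C.Forces (stem q) V k ∧ C.Neg toStem q W k
  nbot : ∀ p V W l k, lab p V W = some l → l ≠ ⊥ → C.Neg toStem p W k →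
    ¬ C.Forces (stem p) V k
  lmono : ∀ p V W V' W' l m, C.B V' ⊆ C.B V → C.B W ⊆ C.B W' →
    lab p V W = some l → lab p V' W' = some m → l ≤ m
  rob : ∀ p (ξ : J), ∃ q ≤ p, ∃ D : RD, D.Valid ∧ ∀ r ≤ q,
    (∀ e : ℚ, 0 < e → ∀ m, lab r (C.bt D.i D.r) (C.bt D.j (D.s + e)) = some m → lb ξ ≤ m) ∧
    ∀ m, lab r (C.bt D.i D.r1) (C.bt D.j (D.s + D.e)) = some m → m ≤ lb ξ

/-- The final system over the linear order `J` (the universal parts are given as predicates, so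
that all axioms are of the form for all there exist). -/
structure Sys (C : Ctx G Y) (J : Type) [LinearOrder J] (P : Type) [Preorder P] extends
    Stem P where
  neg : P → ℕ → ℕ → Prop
  neg_mono : ∀ {p q : P}, q ≤ p → ∀ V k, neg p V k → neg q V k
  neg_not : ∀ p V k, neg p V k → ¬ C.Forces (stem p) V k
  dec0 : ∀ p V k, ∃ q ≤ p, C.Forces (stem q) V k ∨ neg q V k
  lab : P → ℕ → ℕ → Option (Lab J)
  lab_mono : ∀ {p q : P}, q ≤ p → ∀ V W l, lab p V W = some l → lab q V W = some l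
  dec : ∀ p V W, ∃ q ≤ p, ∃ l, lab q V W = some l
  lmono : ∀ p V W V' W' l m, C.B V' ⊆ C.B V → C.B W ⊆ C.B W' →
    lab p V W = some l → lab p V' W' = some m → l ≤ m
  rob : P → RD → J → Prop
  rob_mono : ∀ {p q : P}, q ≤ p → ∀ D ξ, rob p D ξ → rob q D ξ
  rob_ex : ∀ p ξ, ∃ q ≤ p, ∃ D : RD, D.Valid ∧ rob q D ξ
  rob_up : ∀ p (D : RD) ξ, rob p D ξ → ∀ e : ℚ, 0 < e → ∀ m,
    lab p (C.bt D.i D.r) (C.bt D.j (D.s + e)) = some m → lb ξ ≤ m
  rob_down : ∀ p (D : RD) ξ, rob p D ξ → ∀ m,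
    lab p (C.bt D.i D.r1) (C.bt D.j (D.s + D.e)) = some m → m ≤ lb ξ
  R : P → P → ℕ → ℕ → Prop
  w0 : P
  R0 : R w0 w0 C.top C.top
  R1 : ∀ {a b a' b' : P}, a' ≤ a → b' ≤ b → ∀ V Z, R a b V Z → R a' b' V Z
  R2 : ∀ a b V Z V', R a b V Z → C.B V' ⊆ C.B V →
    ∃ a' ≤ a, ∃ b' ≤ b, ∃ Z', C.B Z' ⊆ C.B Z ∧ R b' a' Z' V'
  R3 : ∀ a b V Z k, R a b V Z → C.Forces (stem a) V k → ¬ neg b Z k
  R4 : ∀ a b V Z V1 Z1 l m, R a b V Z → R b a Z1 V1 → lab a V1 V = some l →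
    lab b Z1 Z = some m → l ≤ m
  N : P → P → ℕ → ℕ → Prop
  N_mono : ∀ {a b a' b' : P}, a' ≤ a → b' ≤ b → ∀ V Z, N a b V Z → N a' b' V Z
  N_not : ∀ a b V' Z Z', N a b V' Z → C.B Z' ⊆ C.B Z → ¬ R b a Z' V'
  R5 : ∀ a b V Z, ∃ a' ≤ a, ∃ b' ≤ b, R a' b' V Z ∨ ∃ V', C.B V' ⊆ C.B V ∧ N a' b' V' Z
  R6 : ∀ a b i V Z, R a b V Z → R a b (C.tr i V) (C.tr i Z)
  R7 : ∀ a b V Z V' Z', C.B V' ⊆ C.B V → C.B Z ⊆ C.B Z' → R a b V Z → R a b V' Z'

/-- the automorphism group of the rational order -/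
abbrev Gam := ℚ ≃o ℚ

/-- action of an order automorphism (or any function) on labels -/
def mapLab {J : Type} (φ : J → J) : Lab J → Lab J := WithBot.map (WithTop.map φ)

/-- A system together with an action of the automorphism group of `ℚ`. -/
structure EqSys (C : Ctx G Y) (J : Type) [LinearOrder J] (P : Type) [Preorder P] extends
    Sys C J P where
  aJ : Gam → J → J
  aP : Gam → P → P
  aJ_one : ∀ ξ, aJ 1 ξ = ξ
  aJ_mul : ∀ σ τ ξ, aJ (σ * τ) ξ = aJ σ (aJ τ ξ)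
  aP_one : ∀ p, aP 1 p = p
  aP_mul : ∀ σ τ p, aP (σ * τ) p = aP σ (aP τ p)
  aJ_lt : ∀ σ {ξ η : J}, ξ < η → aJ σ ξ < aJ σ η
  aP_le : ∀ σ {p q : P}, q ≤ p → aP σ q ≤ aP σ p
  a_stem : ∀ σ p, stem (aP σ p) = stem p
  a_neg : ∀ σ p V k, neg p V k → neg (aP σ p) V k
  a_lab : ∀ σ p V W, lab (aP σ p) V W = (lab p V W).map (mapLab (aJ σ))
  a_rob : ∀ σ p D ξ, rob p D ξ → rob (aP σ p) D (aJ σ ξ)
  a_R : ∀ σ a b V Z, R a b V Z → R (aP σ a) (aP σ b) V Z
  a_N : ∀ σ a b V Z, N a b V Z → N (aP σ a) (aP σ b) V Z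
  a_w0 : ∀ σ, aP σ w0 = w0
  ι : ℚ → J
  ι_lt : ∀ {a b : ℚ}, a < b → ι a < ι b
  a_ι : ∀ (σ : Gam) q, aJ σ (ι q) = ι (σ q)
  supp : ∀ ξ : J, ∃ F : Finset ℚ, ∀ σ τ : Gam, (∀ q ∈ F, σ q = τ q) → aJ σ ξ = aJ τ ξ

end Pool.Agent.H71.HV
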