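import Pool.Agent.H71.HV.Targets2

set_option autoImplicit false

open Set Topology TopologicalSpace Filter

namespace Pool.Agent.H71.HV

universe u v

/-- parametrisation of a standard Borel space by the Baire space, making a given Borel map
continuous -/
lemma exists_cont_param {Z W : Type*} [MeasurableSpace Z] [StandardBorelSpace Z] [Nonempty Z]
    [TopologicalSpace W] [SecondCountableTopology W] [MeasurableSpace W]
    [OpensMeasurableSpace W] (h : Z → W) (hh : Measurable h) :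
    ∃ s : (ℕ → ℕ) → Z, Function.Surjective s ∧ Continuous (h ∘ s) := by
  obtain ⟨τ, hb, hp⟩ := StandardBorelSpace.polish (α := Z)
  obtain ⟨t', -, hc, hp'⟩ := hh.exists_continuous
  obtain ⟨s, hs1, hs2⟩ := @PolishSpace.exists_nat_nat_continuous_surjective Z t' hp' _
  exact ⟨s, hs2, @Continuous.comp _ _ _ _ t' _ _ _ hc hs1⟩

section conj

variable {G : Type u} [Group G] [TopologicalSpace G] [IsTopologicalGroup G]

/-- divisibility of stabilisers is invariant -/
lemma sdivides_of_smul {X : Type*} [MulAction G X] (g : G) (x : X)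
    (h : SDivides (MulAction.stabilizer G (g • x))) : SDivides (MulAction.stabilizer G x) := by
  obtain ⟨H, hH, hcl, φ, hφ, ho⟩ := h
  let c : G →* G := (MulAut.conj g).toMonoidHom
  have hc : Continuous c := by
    change Continuous fun a => g * a * g⁻¹
    fun_prop
  let H' : Subgroup G := H.comap c
  let r : H' →* H := (c.comp H'.subtype).codRestrict H (fun a => a.2)
  have hr : Continuous r := Continuous.subtype_mk (hc.comp continuous_subtype_val) _
  refine ⟨H', ?_, ?_, φ.comp r, ?_, ?_⟩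
  · intro a ha
    have h1 : g * a * g⁻¹ ∈ MulAction.stabilizer G (g • x) := hH ha
    rw [MulAction.mem_stabilizer_iff] at h1 ⊢
    rw [smul_smul, inv_mul_cancel_right, mul_smul] at h1
    exact (smul_left_cancel g h1)
  · exact hcl.preimage hc
  · intro p
    obtain ⟨y, hy⟩ := hφ p
    have hm : g⁻¹ * (y : G) * g ∈ H' := by
      change g * (g⁻¹ * (y : G) * g) * g⁻¹ ∈ H
      have : g * (g⁻¹ * (y : G) * g) * g⁻¹ = y := by group
      rw [this]
      exact y.2
    refine ⟨⟨_, hm⟩, ?_⟩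
    rw [MonoidHom.comp_apply, ← hy]
    congr 1
    apply Subtype.ext
    change g * (g⁻¹ * (y : G) * g) * g⁻¹ = y
    group
  · intro n m
    exact (ho n m).preimage hr

end conj

lemma stabilizer_of_embedding {G X Y : Type*} [Group G] [MulAction G X] [MulAction G Y]
    {j : X → Y} (hj : Function.Injective j) (he : ∀ (g : G) x, j (g • x) = g • j x) (x : X) :
    MulAction.stabilizer G (j x) = MulAction.stabilizer G x := by
  ext g
  rw [MulAction.mem_stabilizer_iff, MulAction.mem_stabilizer_iff, ← he]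
  exact hj.eq_iff

/-- contexts -/
lemma exists_ctx {G : Type u} {Y : Type v} [Group G] [MetricSpace G] [TopologicalSpace Y]
    [SecondCountableTopology Y] [MulAction G Y] [Nonempty Y] (F : Frame G) (f : (ℕ → ℕ) → Y)
    (hf : Continuous f) (hinv : ∀ (g : G) z, ∃ z', f z' = g • f z) :
    ∃ C : Ctx G Y, C.f = f := by
  obtain ⟨b, hb1, -, hb2⟩ := exists_countable_basis Y
  have hne : b.Nonempty := by
    obtain ⟨y⟩ := ‹Nonempty Y›
    obtain ⟨v, hv, -, -⟩ := hb2.exists_subset_of_mem_open (mem_univ y) isOpen_univ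
    exact ⟨v, hv⟩
  obtain ⟨U, hU⟩ := hb1.exists_eq_range hne
  exact ⟨{ toFrame := F, U := U, base := hU ▸ hb2, f := f, cont := hf, inv := hinv }, rfl⟩

/-- orbits are Borel -/
lemma measurableSet_orbit (hCR : CRStmt.{u, v}) (hSI : StbInvStmt.{u, v})
    (hBO : OrbStmt.{u, v}) (hMS : MeasStmt.{u, v}) {G : Type u} {Y : Type v} [Group G]
    [MetricSpace G] [IsTopologicalGroup G] [PolishSpace G] [TopologicalSpace Y] [PolishSpace Y]
    [MulAction G Y] [ContinuousSMul G Y] [MeasurableSpace Y] [BorelSpace Y] (hR : RInv G)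
    (F : Frame G) (y : Y) : MeasurableSet {x : Y | ∃ g : G, g • x = y} := by
  have : Nonempty Y := ⟨y⟩
  obtain ⟨f, hf1, hf2⟩ := PolishSpace.exists_nat_nat_continuous_surjective Y
  obtain ⟨C, -⟩ := exists_ctx F f hf1 (fun g z => hf2 _)
  obtain ⟨β, hβ, hst⟩ := hCR G Y C y
  have hβ3 : (β + 3).card ≤ Cardinal.aleph0 := by
    rw [Ordinal.card_add]
    refine Cardinal.add_le_aleph0.2 ⟨hβ, ?_⟩
    exact (Cardinal.natCast_lt_aleph0 (n := 3)).le.trans' (by simp)
  have hset : {x : Y | ∃ g : G, g • x = y} =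
      {x | C.Stb β x} ∩ ((fun x => (x, y)) ⁻¹' {p : Y × Y | C.Le (β + 3) p.1 C.top p.2 C.top} ∩
        (fun x => (y, x)) ⁻¹' {p : Y × Y | C.Le (β + 3) p.1 C.top p.2 C.top}) := by
    ext x
    constructor
    · rintro ⟨g, rfl⟩
      refine ⟨?_, ?_, ?_⟩
      · have := hSI G Y hR C (g • x) g⁻¹ β hst
        rwa [inv_smul_smul] at this
      · exact Ctx.le_of_smul _ x g (fun v _ => by rw [C.B_top]; exact mem_univ _)
      · have := Ctx.le_of_smul (C := C) (β + 3) (g • x) g⁻¹ (V := C.top) (W := C.top)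
          (fun v _ => by rw [C.B_top]; exact mem_univ _)
        rwa [inv_smul_smul] at this
    · rintro ⟨h1, h2, h3⟩
      exact hBO G Y C x y β h1 hst h2 h3
  rw [hset]
  refine (hMS G Y C β hβ).2.inter (MeasurableSet.inter ?_ ?_)
  · exact ((hMS G Y C (β + 3) hβ3).1 C.top C.top).preimage (by fun_prop)
  · exact ((hMS G Y C (β + 3) hβ3).1 C.top C.top).preimage (by fun_prop)

/-- the final statement, for maps from the Baire space -/
def FinStmt : Prop :=
  ∀ (G : Type u) [Group G] [TopologicalSpace G] [IsTopologicalGroup G] [PolishSpace G]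
    [MeasurableSpace G] [BorelSpace G] (X : Type v) [MeasurableSpace X] [StandardBorelSpace X]
    [MulAction G X], Measurable (fun p : G × X => p.1 • p.2) →
    ∀ f : (ℕ → ℕ) → X, Measurable f →
      (∃ c : ℕ → X, ∀ z, ∃ n, ∃ g : G, g • f z = c n) ∨
      (∃ F : (ℕ → Bool) → (ℕ → ℕ), Continuous F ∧
        ∀ u v, u ≠ v → ∀ g : G, g • f (F u) ≠ f (F v)) ∨
      ¬ ∃ c : ℕ → X, ∀ z, SDivides (MulAction.stabilizer G (f z)) → ∃ n, ∃ g : G, g • f z = c n

theorem finAsm (hBK : BKStmt.{u}) (hFR : FrameStmt.{u}) (hEmb : EmbStmt.{u, v})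
    (hCR : CRStmt.{u, u}) (hSI : StbInvStmt.{u, u}) (hBO : OrbStmt.{u, u})
    (hMS : MeasStmt.{u, u}) (hMain : MainStmt.{u, u}) : FinStmt.{u, v} := by
  intro G _ t _ _ _ _ X _ _ _ hact f hf
  obtain ⟨m, hm, hR⟩ := hBK G
  subst hm
  obtain ⟨Y, _, _, _, _, _, _, j, hj1, hj2, hj3⟩ := hEmb G hR X hact
  obtain ⟨Fr⟩ := hFR G
  by_contra hcon
  push Not at hcon
  obtain ⟨h1, h2, c, hc⟩ := hcon
  obtain ⟨z0, hz0⟩ := h1 c
  -- the Borel set of the remaining pairs
  let h : G × (ℕ → ℕ) → Y := fun p => p.1 • j (f p.2)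
  have hh : Measurable h := by
    have h4 : Measurable fun p : G × Y => p.1 • p.2 := continuous_smul.measurable
    exact h4.comp (measurable_fst.prodMk ((hj1.comp hf).comp measurable_snd))
  let S : Set (G × (ℕ → ℕ)) := {p | ∀ n, ∀ g : G, g • h p ≠ j (c n)}
  have hS : MeasurableSet S := by
    have : S = ⋂ n, (h ⁻¹' {x : Y | ∃ g : G, g • x = j (c n)})ᶜ := by
      ext p
      simp [S]
    rw [this]
    exact MeasurableSet.iInter fun n =>
      ((measurableSet_orbit hCR hSI hBO hMS hR Fr (j (c n))).preimage hh).compl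
  have hSne : (⟨1, z0⟩ : G × (ℕ → ℕ)) ∈ S := by
    intro n g hg
    apply hz0 n g
    apply hj2
    rw [hj3, ← hg]
    change g • j (f z0) = g • (1 : G) • j (f z0)
    rw [one_smul]
  have : StandardBorelSpace S := hS.standardBorel
  have : Nonempty S := ⟨⟨_, hSne⟩⟩
  obtain ⟨s, hs1, hs2⟩ := exists_cont_param (Z := S) (W := Y × (ℕ → ℕ))
    (fun p => (h p.1, p.1.2))
    ((hh.comp measurable_subtype_coe).prodMk (measurable_snd.comp measurable_subtype_coe))
  have hfc : Continuous fun z => h (s z).1 := (continuous_fst (X := Y) (Y := ℕ → ℕ)).comp hs2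
  have hsc : Continuous fun z => (s z).1.2 :=
    (continuous_snd (X := Y) (Y := ℕ → ℕ)).comp hs2
  have : Nonempty Y := ⟨j (f z0)⟩
  obtain ⟨C, hCf⟩ := exists_ctx Fr (fun z => h (s z).1) hfc (by
    intro g z
    have hmem : (g * (s z).1.1, (s z).1.2) ∈ S := by
      intro n g' hg'
      apply (s z).2 n (g' * g)
      rw [← hg']
      change (g' * g) • (s z).1.1 • j (f (s z).1.2) = g' • (g * (s z).1.1) • j (f (s z).1.2)
      rw [smul_smul, smul_smul, mul_assoc]
    obtain ⟨z', hz'⟩ := hs1 ⟨_, hmem⟩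
    refine ⟨z', ?_⟩
    simp only [hz']
    change (g * (s z).1.1) • j (f (s z).1.2) = g • (s z).1.1 • j (f (s z).1.2)
    rw [mul_smul])
  have hCf' : ∀ z, C.f z = (s z).1.1 • j (f (s z).1.2) := fun z => by
    rw [hCf]
  obtain ⟨z, hz⟩ := hMain G Y hR C (by
    rintro ⟨F, hF1, hF2⟩
    obtain ⟨u, v, huv, g, hg⟩ := h2 (fun u => (s (F u)).1.2) (hsc.comp hF1)
    refine hF2 u v huv ((s (F v)).1.1 * g * ((s (F u)).1.1)⁻¹) ?_
    rw [hCf', hCf', mul_smul, inv_smul_smul, mul_smul, ← hj3, hg]) (by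
    rintro ⟨c', hc'⟩
    -- countably many orbits in the rest: then countably many orbits
    obtain ⟨z1, hz1⟩ := h1 (fun n => if n % 2 = 0 then c (n / 2) else f (s (c' (n / 2))).1.2)
    have hmem : (⟨1, z1⟩ : G × (ℕ → ℕ)) ∈ S := by
      intro n g hg
      have h5 := hz1 (2 * n) g
      have h6 : (2 * n) % 2 = 0 := by omega
      have h7 : (2 * n) / 2 = n := by omega
      simp only [h6, h7, if_true] at h5
      apply h5
      apply hj2
      rw [hj3, ← hg]
      change g • j (f z1) = g • (1 : G) • j (f z1)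
      rw [one_smul]
    obtain ⟨z2, hz2⟩ := hs1 ⟨_, hmem⟩
    obtain ⟨n, g, hg⟩ := hc' z2
    rw [hCf', hCf', hz2] at hg
    have h5 := hz1 (2 * n + 1) ((s (c' n)).1.1⁻¹ * g)
    have h6 : ¬ (2 * n + 1) % 2 = 0 := by omega
    have h7 : (2 * n + 1) / 2 = n := by omega
    simp only [h6, h7, if_false] at h5
    apply h5
    apply hj2
    rw [hj3, mul_smul, inv_smul_eq_iff, ← hg, one_smul])
  rw [hCf'] at hz
  have hz' := sdivides_of_smul _ _ hz
  rw [stabilizer_of_embedding hj2 hj3] at hz'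
  obtain ⟨n, g, hg⟩ := hc _ hz'
  apply (s z).2 n (g * ((s z).1.1)⁻¹)
  change (g * ((s z).1.1)⁻¹) • (s z).1.1 • j (f (s z).1.2) = j (c n)
  rw [mul_smul, inv_smul_smul, ← hj3, hg]

end Pool.Agent.H71.HV
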