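import Pool.Agent.H71.HV.Basic

/-!
Generic pairs.
-/

set_option autoImplicit false

open Set Topology TopologicalSpace Filter

namespace Pool.Agent.H71.HV

lemma exists_cyl {O : Set (ℕ → ℕ)} (hO : IsOpen O) {z : ℕ → ℕ} (hz : z ∈ O) :
    ∃ m, ∀ z', (∀ i < m, z' i = z i) → z' ∈ O := by
  rw [isOpen_pi_iff] at hO
  obtain ⟨I, u, hu, hsub⟩ := hO z hz
  refine ⟨I.sup id + 1, fun z' hz' => hsub fun i hi => ?_⟩
  rw [hz' i (Nat.lt_succ_of_le (Finset.le_sup (f := id) hi))]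
  exact (hu i hi).2

/-- a descending sequence performing all tasks infinitely often -/
lemma exists_tasks {Q : Type*} [Preorder Q] {I : Type*} [Countable I] [Nonempty I] (a : Q)
    (T : I → Q → Q) (hT : ∀ i x, T i x ≤ x) :
    ∃ s : ℕ → Q, s 0 = a ∧ Antitone s ∧ ∀ i m, ∃ k ≥ m, s (k + 1) = T i (s k) := by
  obtain ⟨e, he⟩ := exists_surjective_nat I
  let s : ℕ → Q := fun n => Nat.rec a (fun k x => T (e (Nat.unpair k).1) x) n
  have hs : ∀ k, s (k + 1) = T (e (Nat.unpair k).1) (s k) := fun k => rfl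
  refine ⟨s, rfl, antitone_nat_of_succ_le fun n => ?_, fun i m => ?_⟩
  · rw [hs]
    exact hT _ _
  · obtain ⟨j, rfl⟩ := he i
    refine ⟨Nat.pair j m, Nat.right_le_pair j m, ?_⟩
    rw [hs, Nat.unpair_pair]

variable {G Y : Type*} [Group G] [MetricSpace G] [TopologicalSpace Y] [MulAction G Y]

lemma Stem.exists_limit {P : Type} [Preorder P] (S : Stem P) {p : ℕ → P} (hp : Antitone p)
    (hu : ∀ m, ∃ n, m ≤ (S.stem (p n)).length) : ∃ z, ∀ n, Pre (S.stem (p n)) z := by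
  choose N hN using fun m => hu (m + 1)
  refine ⟨fun i => (S.stem (p (N i)))[i]'(hN i), fun n i hi => ?_⟩
  rcases le_total n (N i) with h | h
  · exact List.IsPrefix.getElem (S.stem_mono (hp h)) hi
  · exact (List.IsPrefix.getElem (S.stem_mono (hp h)) (hN i)).symm

namespace Ctx

variable {C : Ctx G Y} {P : Type} [Preorder P]

lemma hit_forces [ContinuousConstSMul G Y] {S : Stem P} {p : ℕ → P}
    (hu : ∀ m, ∃ n, m ≤ (S.stem (p n)).length) {z : ℕ → ℕ} (hz : ∀ n, Pre (S.stem (p n)) z)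
    {V k : ℕ} (h : C.Hit (C.f z) V k) : ∃ n, C.Forces (S.stem (p n)) V k := by
  have ho : IsOpen {z | C.Hit (C.f z) V k} := (C.isOpen_hit V k).preimage C.cont
  obtain ⟨m, hm⟩ := exists_cyl ho h
  obtain ⟨n, hn⟩ := hu m
  refine ⟨n, fun z' hz' => hm z' fun i hi => ?_⟩
  rw [← hz' i (lt_of_lt_of_le hi hn), ← hz n i (lt_of_lt_of_le hi hn)]

/-- generic pair of descending sequences with limit points -/
structure GPair (C : Ctx G Y) (S : Stem P) (p q : ℕ → P) (z1 z2 : ℕ → ℕ) : Prop where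
  anti1 : Antitone p
  anti2 : Antitone q
  unb1 : ∀ m, ∃ n, m ≤ (S.stem (p n)).length
  unb2 : ∀ m, ∃ n, m ≤ (S.stem (q n)).length
  pre1 : ∀ n, Pre (S.stem (p n)) z1
  pre2 : ∀ n, Pre (S.stem (q n)) z2
  dec1 : ∀ V k, ∃ n, C.Forces (S.stem (p n)) V k ∨ C.Neg S (p n) V k
  dec2 : ∀ V k, ∃ n, C.Forces (S.stem (q n)) V k ∨ C.Neg S (q n) V k
  rel1 : ∀ n V Z V', C.Rel S (p n) (q n) V Z → C.B V' ⊆ C.B V →
    ∃ m Z', C.B Z' ⊆ C.B Z ∧ C.Rel S (q m) (p m) Z' V'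
  rel2 : ∀ n Z V Z', C.Rel S (q n) (p n) Z V → C.B Z' ⊆ C.B Z →
    ∃ m V', C.B V' ⊆ C.B V ∧ C.Rel S (p m) (q m) V' Z'

namespace GPair

variable {S : Stem P} {p q : ℕ → P} {z1 z2 : ℕ → ℕ}

lemma symm (h : GPair C S p q z1 z2) : GPair C S q p z2 z1 :=
  ⟨h.anti2, h.anti1, h.unb2, h.unb1, h.pre2, h.pre1, h.dec2, h.dec1, h.rel2, h.rel1⟩

lemma neg2 [ContinuousConstSMul G Y] (h : GPair C S p q z1 z2) {Z k : ℕ}
    (hh : ¬ C.Hit (C.f z2) Z k) : ∃ n, C.Neg S (q n) Z k := by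
  obtain ⟨n, hn | hn⟩ := h.dec2 Z k
  · exact absurd (hn z2 (h.pre2 n)) hh
  · exact ⟨n, hn⟩

/-- forced relations hold for generic pairs -/
theorem le [ContinuousConstSMul G Y] (α : Ordinal.{0}) : ∀ {p q : ℕ → P} {z1 z2 : ℕ → ℕ},
    GPair C S p q z1 z2 → ∀ n V Z, C.Rel S (p n) (q n) V Z →
      C.Le α (C.f z1) V (C.f z2) Z := by
  induction α using WellFoundedLT.induction with
  | _ α ih =>
    intro p q z1 z2 h n V Z hR
    rw [le_iff]
    refine ⟨fun k hk => ?_, fun β hβ V' hV' => ?_⟩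
    · by_contra hcon
      obtain ⟨m1, h1⟩ := hit_forces h.unb1 h.pre1 hk
      obtain ⟨m2, h2⟩ := h.neg2 hcon
      set M := max n (max m1 m2)
      have hR' : C.Rel S (p M) (q M) V Z :=
        hR.mono_le (h.anti1 (le_max_left _ _)) (h.anti2 (le_max_left _ _))
      exact hR'.not_base
        (h1.mono_stem (S.stem_mono (h.anti1 ((le_max_left _ _).trans (le_max_right _ _)))))
        (h2.mono_le (h.anti2 ((le_max_right _ _).trans (le_max_right _ _))))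
    · obtain ⟨m, Z', hZ', hR'⟩ := h.rel1 n V Z V' hR hV'
      exact ⟨Z', hZ', ih β hβ h.symm m Z' V' hR'⟩

end GPair

/-- Existence of generic pairs through `(a, b)`, performing in addition countably many tasks. -/
theorem exists_gpair (C : Ctx G Y) (S : Stem P) (a b : P) {I : Type} [Countable I]
    (T : I → P × P → P × P) (hT : ∀ i x, T i x ≤ x) :
    ∃ p q : ℕ → P, ∃ z1 z2, p 0 = a ∧ q 0 = b ∧ GPair C S p q z1 z2 ∧
      ∀ i m, ∃ k ≥ m, (p (k + 1), q (k + 1)) = T i (p k, q k) := by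
  classical
  -- internal tasks
  choose ex hex1 hex2 using S.stem_ext
  have hd : ∀ (V k : ℕ) (p : P), ∃ q ≤ p, C.Forces (S.stem q) V k ∨ C.Neg S q V k := by
    intro V k p
    by_cases h : ∃ q ≤ p, C.Forces (S.stem q) V k
    · obtain ⟨q, hq, h⟩ := h
      exact ⟨q, hq, Or.inl h⟩
    · refine ⟨p, le_rfl, Or.inr fun q hq hf => h ⟨q, hq, hf⟩⟩
  choose d hd1 hd2 using hd
  have hr : ∀ (t : ℕ × ℕ × ℕ) (x : P × P), ∃ y : P × P, y ≤ x ∧
      (C.Rel S x.1 x.2 t.1 t.2.1 → C.B t.2.2 ⊆ C.B t.1 →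
        ∃ Z', C.B Z' ⊆ C.B t.2.1 ∧ C.Rel S y.2 y.1 Z' t.2.2) := by
    intro t x
    by_cases h : C.Rel S x.1 x.2 t.1 t.2.1 ∧ C.B t.2.2 ⊆ C.B t.1
    · obtain ⟨a', ha', b', hb', Z', hZ', hR⟩ := h.1.step h.2
      exact ⟨(a', b'), ⟨ha', hb'⟩, fun _ _ => ⟨Z', hZ', hR⟩⟩
    · exact ⟨x, le_rfl, fun h1 h2 => absurd ⟨h1, h2⟩ h⟩
  choose r hr1 hr2 using hr
  let J := Option I ⊕ ℕ ⊕ (ℕ × ℕ) ⊕ (ℕ × ℕ) ⊕ (ℕ × ℕ × ℕ) ⊕ (ℕ × ℕ × ℕ)
  let T' : J → P × P → P × P := fun j x => match j with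
    | .inl none => x
    | .inl (some i) => T i x
    | .inr (.inl n) => (ex x.1 n, ex x.2 n)
    | .inr (.inr (.inl t)) => (d t.1 t.2 x.1, x.2)
    | .inr (.inr (.inr (.inl t))) => (x.1, d t.1 t.2 x.2)
    | .inr (.inr (.inr (.inr (.inl t)))) => r t x
    | .inr (.inr (.inr (.inr (.inr t)))) => (r t x.swap).swap
  have hT' : ∀ j x, T' j x ≤ x := by
    rintro ((_ | i) | n | t | t | t | t) x
    · exact le_rfl
    · exact hT i x
    · exact ⟨hex1 _ _, hex1 _ _⟩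
    · exact ⟨hd1 _ _ _, le_rfl⟩
    · exact ⟨le_rfl, hd1 _ _ _⟩
    · exact hr1 t x
    · have := hr1 t x.swap
      exact ⟨this.2, this.1⟩
  obtain ⟨s, hs0, hanti, hs⟩ := exists_tasks (I := J) (a, b) T' hT'
  have ha1 : Antitone fun n => (s n).1 := fun m n h => (hanti h).1
  have ha2 : Antitone fun n => (s n).2 := fun m n h => (hanti h).2
  have hu1 : ∀ m, ∃ n, m ≤ (S.stem (s n).1).length := fun m => by
    obtain ⟨k, -, hk⟩ := hs (.inr (.inl m)) 0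
    refine ⟨k + 1, ?_⟩
    rw [hk]
    exact hex2 _ _
  have hu2 : ∀ m, ∃ n, m ≤ (S.stem (s n).2).length := fun m => by
    obtain ⟨k, -, hk⟩ := hs (.inr (.inl m)) 0
    refine ⟨k + 1, ?_⟩
    rw [hk]
    exact hex2 _ _
  obtain ⟨z1, hz1⟩ := S.exists_limit ha1 hu1
  obtain ⟨z2, hz2⟩ := S.exists_limit ha2 hu2
  refine ⟨fun n => (s n).1, fun n => (s n).2, z1, z2, by simp [hs0], by simp [hs0],
    ⟨ha1, ha2, hu1, hu2, hz1, hz2, ?_, ?_, ?_, ?_⟩, fun i m => ?_⟩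
  · intro V k
    obtain ⟨n, -, hn⟩ := hs (.inr (.inr (.inl (V, k)))) 0
    refine ⟨n + 1, ?_⟩
    rw [hn]
    exact hd2 V k _
  · intro V k
    obtain ⟨n, -, hn⟩ := hs (.inr (.inr (.inr (.inl (V, k))))) 0
    refine ⟨n + 1, ?_⟩
    rw [hn]
    exact hd2 V k _
  · intro n V Z V' hR hV'
    obtain ⟨m, hm, hm'⟩ := hs (.inr (.inr (.inr (.inr (.inl (V, Z, V')))))) n
    obtain ⟨Z', h1, h2⟩ := hr2 (V, Z, V') (s m) (hR.mono_le (ha1 hm) (ha2 hm)) hV'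
    refine ⟨m + 1, Z', h1, ?_⟩
    rw [hm']
    exact h2
  · intro n Z V Z' hR hZ'
    obtain ⟨m, hm, hm'⟩ := hs (.inr (.inr (.inr (.inr (.inr (Z, V, Z')))))) n
    obtain ⟨V', h1, h2⟩ := hr2 (Z, V, Z') (s m).swap (hR.mono_le (ha2 hm) (ha1 hm)) hZ'
    refine ⟨m + 1, V', h1, ?_⟩
    rw [hm']
    exact h2
  · obtain ⟨k, hk, hk'⟩ := hs (.inl (some i)) m
    exact ⟨k, hk, hk'⟩

end Ctx

end Pool.Agent.H71.HV
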