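import Pool.Agent.H71.HV.Targets2

set_option autoImplicit false

open Set Topology TopologicalSpace Filter

namespace Pool.Agent.H71.HV

universe u v

theorem r5 : R5Stmt.{u, v} := by
  intro G Y _ _ _ _ _ _ _ C P _ S a b V Z
  by_contra hcon
  push Not at hcon
  -- step (i): a separated pair
  obtain ⟨h0, -⟩ := hcon a le_rfl b le_rfl
  unfold Ctx.Rel at h0
  push Not at h0
  obtain ⟨a', ha', b', hb', α, hS⟩ := h0
  have h2 : ∀ a1 ≤ a', ∀ b1 ≤ b', ∀ V', C.B V' ⊆ C.B V →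
      ∃ a'' ≤ a1, ∃ b'' ≤ b1, ∃ Z', C.B Z' ⊆ C.B Z ∧ C.Rel S b'' a'' Z' V' := by
    intro a1 ha1 b1 hb1 V' hV'
    exact (hcon a1 (ha1.trans ha') b1 (hb1.trans hb')).2 V' hV'
  rw [Ctx.sep_iff] at hS
  rcases hS with ⟨k, hk1, hk2⟩ | ⟨V', hV', hstep⟩
  · obtain ⟨p, q, z, z2, hp0, hq0, hgp, -⟩ := C.exists_gpair S a' b' (I := Empty)
        (fun i _ => i.elim) (fun i _ => i.elim)
    have hz : Pre (S.stem a') z := by
      have := hgp.pre1 0
      rwa [hp0] at this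
    obtain ⟨v, hv, hvU⟩ := hk1 z hz
    -- regularity
    obtain ⟨K, hK1, hK2, hK3⟩ : ∃ K : Set Y, IsOpen K ∧ v • C.f z ∈ K ∧ closure K ⊆ C.U k := by
      obtain ⟨t, ht1, ht2, ht3⟩ := exists_mem_nhds_isClosed_subset ((C.isOpen_U k).mem_nhds hvU)
      refine ⟨interior t, isOpen_interior, mem_interior_iff_mem_nhds.2 ht1, ?_⟩
      exact (closure_minimal interior_subset ht2).trans ht3
    have hcont : Continuous fun x : G × (ℕ → ℕ) => x.1 • C.f x.2 :=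
      continuous_fst.smul (C.cont.comp continuous_snd)
    have hO : IsOpen ((fun x : G × (ℕ → ℕ) => x.1 • C.f x.2) ⁻¹' K) := hK1.preimage hcont
    obtain ⟨O1, O2, ho1, ho2, hm1, hm2, hsub⟩ := isOpen_prod_iff.1 hO v z hK2
    obtain ⟨V', hvV', hV'⟩ := C.exists_token (ho1.inter (C.isOpen_B V)) ⟨hm1, hv⟩
    obtain ⟨m, hm⟩ := exists_cyl ho2 hm2
    obtain ⟨n, hn⟩ := hgp.unb1 m
    have hpa : p n ≤ a' := by
      rw [← hp0]
      exact hgp.anti1 (Nat.zero_le n)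
    have hkey : ∀ z', Pre (S.stem (p n)) z' → ∀ g ∈ C.B V', g • C.f z' ∈ K := by
      intro z' hz' g hg
      have : (g, z') ∈ O1 ×ˢ O2 := by
        refine ⟨(hV' hg).1, hm z' fun i hi => ?_⟩
        rw [← hz' i (lt_of_lt_of_le hi hn), ← hgp.pre1 n i (lt_of_lt_of_le hi hn)]
      exact hsub this
    obtain ⟨a'', ha'', b'', hb'', Z', hZ', hR⟩ := h2 (p n) hpa b' le_rfl V'
      (fun g hg => (hV' hg).2)
    obtain ⟨p', q', z1, z2', hp'0, hq'0, hgp', -⟩ := C.exists_gpair S b'' a'' (I := Empty)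
        (fun i _ => i.elim) (fun i _ => i.elim)
    have hle := hgp'.le 0 0 Z' V' (by rw [hp'0, hq'0]; exact hR)
    rw [Ctx.le_zero_iff] at hle
    obtain ⟨g, hg⟩ := C.nonempty_B Z'
    have hcl := Ctx.closure_of_hit hle hg
    have hz2' : Pre (S.stem (p n)) z2' := by
      have h1 := hgp'.pre2 0
      rw [hq'0] at h1
      intro i hi
      have h3 := S.stem_mono ha''
      rw [List.IsPrefix.getElem h3 hi]
      exact h1 i _
    have hgU : g • C.f z1 ∈ C.U k := by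
      apply hK3
      refine closure_mono ?_ hcl
      rintro _ ⟨w, hw, rfl⟩
      exact hkey z2' hz2' w hw
    obtain ⟨n', hn'⟩ := Ctx.hit_forces hgp'.unb1 hgp'.pre1 (V := Z) (k := k)
      ⟨g, hZ' hg, hgU⟩
    refine hk2 (p' n') ?_ hn'
    calc p' n' ≤ p' 0 := hgp'.anti1 (Nat.zero_le n')
      _ = b'' := hp'0
      _ ≤ b' := hb''
  · obtain ⟨a'', ha'', b'', hb'', Z', hZ', hR⟩ := h2 a' le_rfl b' le_rfl V' hV'
    obtain ⟨a3, ha3, b3, hb3, β, -, hS⟩ := hstep a'' ha'' b'' hb'' Z' hZ'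
    exact hR b3 hb3 a3 ha3 β hS

end Pool.Agent.H71.HV
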