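import Pool.Agent.H71.HV.Gen

/-!
Targets of the HV modules (see the blueprint `H71_HV_blueprint.md` in the team store).
-/

set_option autoImplicit false

open Set Topology TopologicalSpace Filter

namespace Pool.Agent.H71.HV

universe u v

/-! ### general facts -/

/-- BK (Birkhoff–Kakutani): a right-invariant compatible metric. -/
def BKStmt : Prop :=
  ∀ (G : Type u) [Group G] [t : TopologicalSpace G] [IsTopologicalGroup G]
    [FirstCountableTopology G] [T2Space G],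
    ∃ m : MetricSpace G, m.toPseudoMetricSpace.toUniformSpace.toTopologicalSpace = t ∧ @RInv G _ m

/-- FR: existence of frames. -/
def FrameStmt : Prop :=
  ∀ (G : Type u) [Group G] [MetricSpace G] [IsTopologicalGroup G] [SecondCountableTopology G],
    Nonempty (Frame G)

/-- SIL: Silver's theorem for Borel equivalence relations on the Baire space. -/
def SilverStmt : Prop :=
  ∀ E : Setoid (ℕ → ℕ), MeasurableSet {p : (ℕ → ℕ) × (ℕ → ℕ) | E p.1 p.2} →
    Countable (Quotient E) ∨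
      ∃ F : (ℕ → Bool) → (ℕ → ℕ), Continuous F ∧ ∀ u v, u ≠ v → ¬ E (F u) (F v)

/-- EMB: every Borel `G`-space embeds equivariantly into a Polish `G`-space. -/
def EmbStmt : Prop :=
  ∀ (G : Type u) [Group G] [MetricSpace G] [IsTopologicalGroup G] [PolishSpace G]
    [MeasurableSpace G] [BorelSpace G], RInv G →
  ∀ (X : Type v) [MeasurableSpace X] [StandardBorelSpace X] [MulAction G X],
    Measurable (fun p : G × X => p.1 • p.2) →
    ∃ (Y : Type u) (_ : TopologicalSpace Y) (_ : PolishSpace Y) (_ : MulAction G Y)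
      (_ : ContinuousSMul G Y) (_ : MeasurableSpace Y) (_ : BorelSpace Y) (j : X → Y),
      Measurable j ∧ Function.Injective j ∧ ∀ (g : G) x, j (g • x) = g • j x

/-! ### combinatorics -/

/-- HOM: homogeneous sets (Erdős–Rado), coherently for countably many colourings. -/
def HomStmt : Prop :=
  ∀ (κ : Type) [LinearOrder κ] [WellFoundedLT κ],
    Cardinal.beth (Ordinal.omega 1) ≤ Cardinal.mk κ →
    ∀ (ar : ℕ → ℕ) (c : ∀ i, (Fin (ar i) → κ) → ℕ), ∃ v : ℕ → ℕ, ∀ m, ∃ X : Set κ,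
      X.Infinite ∧ ∀ i < m, ∀ t : Fin (ar i) → κ, StrictMono t → (∀ j, t j ∈ X) → c i t = v i

/-- Output of the Ehrenfeucht–Mostowski construction for a structure on `Ω` with binary
operations `op i`, binary colourings `col i` with values in `ℕ`, and `e : κ → Ω`. -/
structure EMOut (κ Ω : Type) [LT κ] (e : κ → Ω) (op : ℕ → Ω → Ω → Ω)
    (col : ℕ → Ω → Ω → ℕ) where
  Ω' : Type
  ctbl : Countable Ω'
  D : Type
  U : Ultrafilter D
  ev : D → Ω' → Ω
  op' : ℕ → Ω' → Ω' → Ω'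
  col' : ℕ → Ω' → Ω' → ℕ
  e' : ℚ → Ω'
  ξ : D → ℚ → κ
  ev_op : ∀ i x y, ∀ᶠ d in (U : Filter D), ev d (op' i x y) = op i (ev d x) (ev d y)
  ev_col : ∀ i x y, ∀ᶠ d in (U : Filter D), col i (ev d x) (ev d y) = col' i x y
  ev_inj : ∀ x y, x ≠ y → ∀ᶠ d in (U : Filter D), ev d x ≠ ev d y
  ev_e : ∀ q, ∀ᶠ d in (U : Filter D), ev d (e' q) = e (ξ d q)
  ξ_lt : ∀ q r, q < r → ∀ᶠ d in (U : Filter D), ξ d q < ξ d r
  act : Gam → Ω' → Ω'
  act_one : ∀ x, act 1 x = x
  act_mul : ∀ σ τ x, act (σ * τ) x = act σ (act τ x)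
  act_op : ∀ σ i x y, act σ (op' i x y) = op' i (act σ x) (act σ y)
  act_col : ∀ σ i x y, col' i (act σ x) (act σ y) = col' i x y
  act_e : ∀ (σ : Gam) q, act σ (e' q) = e' (σ q)
  supp : ∀ x, ∃ F : Finset ℚ, ∀ σ τ : Gam, (∀ q ∈ F, σ q = τ q) → act σ x = act τ x

/-- EM -/
def EMStmt : Prop :=
  ∀ (κ Ω : Type) [LinearOrder κ] [WellFoundedLT κ],
    Cardinal.beth (Ordinal.omega 1) ≤ Cardinal.mk κ →
    ∀ (e : κ → Ω) (op : ℕ → Ω → Ω → Ω) (col : ℕ → Ω → Ω → ℕ),
      Nonempty (EMOut κ Ω e op col)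

/-! ### the relations of Hjorth -/

/-- countably many orbits in `A` -/
def Ctx.CtblOrb {G : Type u} {Y : Type v} [Group G] [MetricSpace G] [TopologicalSpace Y]
    [MulAction G Y] (C : Ctx G Y) : Prop :=
  ∃ c : ℕ → (ℕ → ℕ), ∀ z, ∃ n, ∃ g : G, g • C.f z = C.f (c n)

/-- RK1: stability is monotone in the level. -/
def StbMonoStmt : Prop :=
  ∀ (G : Type u) (Y : Type v) [Group G] [MetricSpace G] [TopologicalSpace Y] [MulAction G Y]
    (C : Ctx G Y) (x : Y) (β γ : Ordinal.{0}), β ≤ γ → C.Stb β x → C.Stb γ x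

/-- RK2: robust data. -/
def RobStmt : Prop :=
  ∀ (G : Type u) (Y : Type v) [Group G] [MetricSpace G] [TopologicalSpace Y] [MulAction G Y]
    (C : Ctx G Y) (x : Y) (β : Ordinal.{0}), ¬ C.Stb β x → ∃ D : RD, D.Valid ∧
      (∀ e : ℚ, 0 < e → C.Le β x (C.bt D.i D.r) x (C.bt D.j (D.s + e))) ∧
      ¬ C.Le (β + 1) x (C.bt D.i D.r1) x (C.bt D.j (D.s + D.e))

/-- CR: every point is stable at some countable level. -/
def CRStmt : Prop :=
  ∀ (G : Type u) (Y : Type v) [Group G] [MetricSpace G] [TopologicalSpace Y] [MulAction G Y]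
    (C : Ctx G Y) (x : Y), ∃ β : Ordinal.{0}, β.card ≤ Cardinal.aleph0 ∧ C.Stb β x

/-- SI: stability is invariant. -/
def StbInvStmt : Prop :=
  ∀ (G : Type u) (Y : Type v) [Group G] [MetricSpace G] [IsTopologicalGroup G]
    [TopologicalSpace Y] [MulAction G Y], RInv G →
    ∀ (C : Ctx G Y) (x : Y) (g : G) (β : Ordinal.{0}), C.Stb β x → C.Stb β (g • x)

/-- BO: for stable points the orbit equivalence relation is `Le (θ + 3)` in both directions. -/
def OrbStmt : Prop :=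
  ∀ (G : Type u) (Y : Type v) [Group G] [MetricSpace G] [IsTopologicalGroup G] [PolishSpace G]
    [TopologicalSpace Y] [T2Space Y] [MulAction G Y] [ContinuousSMul G Y]
    (C : Ctx G Y) (x y : Y) (θ : Ordinal.{0}), C.Stb θ x → C.Stb θ y →
    C.Le (θ + 3) x C.top y C.top → C.Le (θ + 3) y C.top x C.top → ∃ g : G, g • x = y

/-- MS: measurability. -/
def MeasStmt : Prop :=
  ∀ (G : Type u) (Y : Type v) [Group G] [MetricSpace G] [TopologicalSpace Y]
    [SecondCountableTopology Y] [MulAction G Y] [ContinuousConstSMul G Y] [MeasurableSpace Y]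
    [BorelSpace Y] (C : Ctx G Y) (α : Ordinal.{0}), α.card ≤ Cardinal.aleph0 →
    (∀ V W, MeasurableSet {p : Y × Y | C.Le α p.1 V p.2 W}) ∧ MeasurableSet {x | C.Stb α x}

/-- BDD: bounded rank. -/
def BddStmt : Prop :=
  ∀ (G : Type u) (Y : Type v) [Group G] [MetricSpace G] [IsTopologicalGroup G] [PolishSpace G]
    [TopologicalSpace Y] [PolishSpace Y] [MulAction G Y] [ContinuousSMul G Y]
    (C : Ctx G Y) (θ : Ordinal.{0}), θ.card ≤ Cardinal.aleph0 → (∀ z, C.Stb θ (C.f z)) →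
    C.Perfect ∨ C.CtblOrb

/-- T: perfect set or a deciding condition. -/
def TStmt : Prop :=
  ∀ (G : Type u) (Y : Type v) [Group G] [MetricSpace G] [IsTopologicalGroup G]
    [TopologicalSpace Y] [T2Space Y] [MulAction G Y] [ContinuousSMul G Y]
    (C : Ctx G Y) (P : Type) [Preorder P] [Nonempty P] (S : Stem P), ¬ C.Perfect →
    ∃ w, C.Rel S w w C.top C.top

/-- WM: labelled posets exist over every well-order if the ranks are unbounded. -/
def WMStmt : Prop :=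
  ∀ (G : Type u) (Y : Type v) [Group G] [MetricSpace G] [TopologicalSpace Y] [MulAction G Y]
    [ContinuousConstSMul G Y] (C : Ctx G Y),
    (∀ θ : Ordinal.{0}, θ.card ≤ Cardinal.aleph0 → ∃ z, ¬ C.Stb θ (C.f z)) →
    ∀ (κ : Type) [LinearOrder κ] [WellFoundedLT κ],
      ∃ (P : Type) (_ : Preorder P), Nonempty P ∧ Nonempty (LP C κ P)

/-- R4: labels are respected by forced relations. -/
def R4Stmt : Prop :=
  ∀ (G : Type u) (Y : Type v) [Group G] [MetricSpace G] [IsTopologicalGroup G]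
    [TopologicalSpace Y] [T2Space Y] [MulAction G Y] [ContinuousSMul G Y]
    (C : Ctx G Y) (κ : Type) [LinearOrder κ] [WellFoundedLT κ] (P : Type) [Preorder P]
    (L : LP C κ P) (a b : P) (V Z V1 Z1 : ℕ) (l m : Lab κ),
    C.Rel L.toStem a b V Z → C.Rel L.toStem b a Z1 V1 →
    L.lab a V1 V = some l → L.lab b Z1 Z = some m → l ≤ m

/-- R5: deciding forced relations. -/
def R5Stmt : Prop :=
  ∀ (G : Type u) (Y : Type v) [Group G] [MetricSpace G] [IsTopologicalGroup G]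
    [TopologicalSpace Y] [PolishSpace Y] [MulAction G Y] [ContinuousSMul G Y]
    (C : Ctx G Y) (P : Type) [Preorder P] (S : Stem P) (a b : P) (V Z : ℕ),
    ∃ a' ≤ a, ∃ b' ≤ b, C.Rel S a' b' V Z ∨ ∃ V', C.B V' ⊆ C.B V ∧
      ∀ a'' ≤ a', ∀ b'' ≤ b', ∀ Z', C.B Z' ⊆ C.B Z → ¬ C.Rel S b'' a'' Z' V'

/-- R6: left translations. -/
def R6Stmt : Prop :=
  ∀ (G : Type u) (Y : Type v) [Group G] [MetricSpace G] [IsTopologicalGroup G]
    [TopologicalSpace Y] [T2Space Y] [MulAction G Y] [ContinuousSMul G Y]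
    (C : Ctx G Y) (P : Type) [Preorder P] (S : Stem P) (a b : P) (i V Z : ℕ),
    C.Rel S a b V Z → C.Rel S a b (C.tr i V) (C.tr i Z)

/-- SYS: assembly over a well-order. -/
def SysStmt : Prop :=
  ∀ (G : Type u) (Y : Type v) [Group G] [MetricSpace G] [IsTopologicalGroup G]
    [TopologicalSpace Y] [PolishSpace Y] [MulAction G Y] [ContinuousSMul G Y]
    (C : Ctx G Y), ¬ C.Perfect →
    ∀ (κ : Type) [LinearOrder κ] [WellFoundedLT κ] (P : Type) [Preorder P] [Nonempty P],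
      LP C κ P → Nonempty (Sys C κ P)

/-- TR: transfer to a system with an action of the automorphism group of `ℚ`. -/
def TRStmt : Prop :=
  ∀ (G : Type u) (Y : Type v) [Group G] [MetricSpace G] [TopologicalSpace Y] [MulAction G Y]
    (C : Ctx G Y) (κ : Type) [LinearOrder κ] [WellFoundedLT κ] (P : Type) [Preorder P],
    Cardinal.beth (Ordinal.omega 1) ≤ Cardinal.mk κ → Sys C κ P →
    ∃ (J : Type) (_ : LinearOrder J) (P' : Type) (_ : Preorder P'),
      Countable J ∧ Countable P' ∧ Nonempty (EqSys C J P')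

/-! ### group elements -/

/-- A saturated correspondence between `x` and `y` -/
structure Corr {G : Type u} {Y : Type v} [Group G] [MetricSpace G] [TopologicalSpace Y]
    [MulAction G Y] (C : Ctx G Y) (x y : Y) (Rp Rm : ℕ → ℕ → Prop) : Prop where
  top : Rp C.top C.top
  fwd : ∀ V Z V', Rp V Z → C.B V' ⊆ C.B V → ∃ Z', C.B Z' ⊆ C.B Z ∧ Rm Z' V'
  bwd : ∀ Z V Z', Rm Z V → C.B Z' ⊆ C.B Z → ∃ V', C.B V' ⊆ C.B V ∧ Rp V' Z'
  hitp : ∀ V Z k, Rp V Z → C.Hit x V k → C.Hit y Z k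
  hitm : ∀ Z V k, Rm Z V → C.Hit y Z k → C.Hit x V k
  trp : ∀ i V Z, Rp V Z → Rp (C.tr i V) (C.tr i Z)
  trm : ∀ i Z V, Rm Z V → Rm (C.tr i Z) (C.tr i V)
  monp : ∀ V Z V' Z', C.B V' ⊆ C.B V → C.B Z ⊆ C.B Z' → Rp V Z → Rp V' Z'
  monm : ∀ Z V Z' V', C.B Z' ⊆ C.B Z → C.B V ⊆ C.B V' → Rm Z V → Rm Z' V'
  satp : ∀ V Z, Rp V Z ∨ ∃ V', C.B V' ⊆ C.B V ∧ ∀ Z', C.B Z' ⊆ C.B Z → ¬ Rm Z' V'
  satm : ∀ Z V, Rm Z V ∨ ∃ Z', C.B Z' ⊆ C.B Z ∧ ∀ V', C.B V' ⊆ C.B V → ¬ Rp V' Z'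

/-- K: a saturated correspondence is induced by a group element. -/
def KStmt : Prop :=
  ∀ (G : Type u) (Y : Type v) [Group G] [MetricSpace G] [IsTopologicalGroup G] [PolishSpace G]
    [TopologicalSpace Y] [T2Space Y] [MulAction G Y] [ContinuousSMul G Y]
    (C : Ctx G Y) (x y : Y) (Rp Rm : ℕ → ℕ → Prop), Corr C x y Rp Rm →
    ∃ k : G, k • x = y ∧ (∀ V Z, (∀ v ∈ C.B V, v * k⁻¹ ∈ C.B Z) → Rp V Z) ∧
      ∀ Z V, (∀ w ∈ C.B Z, w * k ∈ C.B V) → Rm Z V

/-- `π` respects the labels up to `φ` (inequalities on slightly shrunk/enlarged balls) -/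
def Ctx.Phi {G : Type u} {Y : Type v} [Group G] [MetricSpace G] [TopologicalSpace Y]
    [MulAction G Y] (C : Ctx G Y) {J : Type} [LinearOrder J] (Δ : ℕ → ℕ → Lab J)
    (φ : Lab J → Lab J) (π : G) : Prop :=
  (∀ (i j i' j' : ℕ) (r s r' s' : ℚ), 0 < r → 0 < s → 0 < r' → 0 < s' →
    dist (C.cen j * π) (C.cen i) + s < r → dist (C.cen j' * π) (C.cen i') + r' < s' →
    Δ (C.bt i r) (C.bt i' r') ≤ φ (Δ (C.bt j s) (C.bt j' s'))) ∧
  ∀ (i j i' j' : ℕ) (r s r' s' : ℚ), 0 < r → 0 < s → 0 < r' → 0 < s' →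
    dist (C.cen j * π) (C.cen i) + r < s → dist (C.cen j' * π) (C.cen i') + s' < r' →
    φ (Δ (C.bt j s) (C.bt j' s')) ≤ Δ (C.bt i r) (C.bt i' r')

/-- a point with labels on which all `σ` are realised by stabiliser elements -/
structure Final {G : Type u} {Y : Type v} [Group G] [MetricSpace G] [TopologicalSpace Y]
    [MulAction G Y] (C : Ctx G Y) {J : Type} [LinearOrder J] (aJ : Gam → J → J) (z : ℕ → ℕ)
    (Δ : ℕ → ℕ → Lab J) : Prop where
  mono : ∀ V W V' W', C.B V' ⊆ C.B V → C.B W ⊆ C.B W' → Δ V W ≤ Δ V' W'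
  rob : ∀ ξ : J, ∃ D : RD, D.Valid ∧
    (∀ e : ℚ, 0 < e → lb ξ ≤ Δ (C.bt D.i D.r) (C.bt D.j (D.s + e))) ∧
    Δ (C.bt D.i D.r1) (C.bt D.j (D.s + D.e)) ≤ lb ξ
  real : ∀ σ : Gam, ∃ π ∈ MulAction.stabilizer G (C.f z), C.Phi Δ (mapLab (aJ σ)) π

/-- B1: from an equivariant system to a point. -/
def B1Stmt : Prop :=
  ∀ (G : Type u) (Y : Type v) [Group G] [MetricSpace G] [IsTopologicalGroup G] [PolishSpace G]
    [TopologicalSpace Y] [PolishSpace Y] [MulAction G Y] [ContinuousSMul G Y], RInv G →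
    ∀ (C : Ctx G Y) (J : Type) [LinearOrder J] [Countable J] (P : Type) [Preorder P]
    [Countable P] (E : EqSys C J P), ∃ z Δ, Final C E.aJ z Δ

/-- F: the stabiliser is divisible by the infinite symmetric group. -/
def FStmt : Prop :=
  ∀ (G : Type u) (Y : Type v) [Group G] [MetricSpace G] [IsTopologicalGroup G] [PolishSpace G]
    [TopologicalSpace Y] [PolishSpace Y] [MulAction G Y] [ContinuousSMul G Y], RInv G →
    ∀ (C : Ctx G Y) (J : Type) [LinearOrder J] (P : Type) [Preorder P]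
    (E : EqSys C J P) (z : ℕ → ℕ) (Δ : ℕ → ℕ → Lab J), Final C E.aJ z Δ →
    SDivides (MulAction.stabilizer G (C.f z))

/-- MAIN -/
def MainStmt : Prop :=
  ∀ (G : Type u) (Y : Type v) [Group G] [MetricSpace G] [IsTopologicalGroup G] [PolishSpace G]
    [TopologicalSpace Y] [PolishSpace Y] [MulAction G Y] [ContinuousSMul G Y], RInv G →
    ∀ C : Ctx G Y, ¬ C.Perfect → ¬ C.CtblOrb → ∃ z, SDivides (MulAction.stabilizer G (C.f z))

end Pool.Agent.H71.HV
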