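import Pool.Agent.H71.HV.Targets

/-!
Intermediate targets of the HV modules (see the blueprint `H71_HV_blueprint.md` in the team store).
-/

set_option autoImplicit false

open Set Topology TopologicalSpace Filter

namespace Pool.Agent.H71.HV

universe u v

/-! ### Silver -/

/-- a dense sequence of finite binary sequences, `s n` of length `n` -/
def DenseSeq (s : ℕ → List Bool) : Prop := (∀ n, (s n).length = n) ∧ ∀ t, ∃ n, t <+: s n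

/-- the point `t⌢b⌢c` -/
def glue (t : List Bool) (b : Bool) (c : ℕ → Bool) : ℕ → Bool := fun i =>
  if h : i < t.length then t[i] else if i = t.length then b else c (i - t.length - 1)

/-- SIL1 -/
def Silver1Stmt : Prop :=
  ∀ (s : ℕ → List Bool), DenseSeq s → ∀ E : Setoid (ℕ → ℕ),
    MeasureTheory.AnalyticSet {p : (ℕ → ℕ) × (ℕ → ℕ) | ¬ E p.1 p.2} →
    Countable (Quotient E) ∨ ∃ ψ : (ℕ → Bool) → (ℕ → ℕ), Continuous ψ ∧
      ∀ n c, ¬ E (ψ (glue (s n) false c)) (ψ (glue (s n) true c))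

/-- SIL2 -/
def Silver2Stmt : Prop :=
  ∀ (s : ℕ → List Bool), DenseSeq s → ∀ E : Setoid (ℕ → Bool),
    MeasurableSet {p : (ℕ → Bool) × (ℕ → Bool) | E p.1 p.2} →
    (∀ n c, ¬ E (glue (s n) false c) (glue (s n) true c)) →
    ∃ F : (ℕ → Bool) → (ℕ → Bool), Continuous F ∧ ∀ u v, u ≠ v → ¬ E (F u) (F v)

/-- SIL from SIL1 and SIL2 -/
def SilverAsmStmt : Prop := Silver1Stmt → Silver2Stmt → SilverStmt

/-! ### the universal space -/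

/-- EMB1: the universal space. -/
def Emb1Stmt : Prop :=
  ∀ (G : Type u) [Group G] [MetricSpace G] [IsTopologicalGroup G] [SecondCountableTopology G],
    RInv G →
    ∃ (Y : Type u) (_ : TopologicalSpace Y) (_ : PolishSpace Y) (_ : MulAction G Y)
      (_ : ContinuousSMul G Y) (ev : Y → ℕ → G → ℝ),
      Function.Injective ev ∧ (∀ g y k h, ev (g • y) k h = ev y k (h * g)) ∧
      (∀ φ : ℕ → G → ℝ, (∀ k g, 0 ≤ φ k g ∧ φ k g ≤ 1) →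
        (∀ k g h, |φ k g - φ k h| ≤ dist g h) → ∃ y, ev y = φ) ∧
      ∀ (A : Type v) [MeasurableSpace A] (j : A → Y),
        (∀ k h, Measurable fun a => ev (j a) k h) → @Measurable A Y _ (borel Y) j

/-- EMB2: EMB from EMB1 -/
def Emb2Stmt : Prop := Emb1Stmt.{u, v} → EmbStmt.{u, v}

/-! ### partition calculus -/

/-- ER: the theorem of Erdős and Rado. -/
def ERStmt : Prop :=
  ∀ (n : ℕ) (α : Ordinal.{0}) (κ : Type) [LinearOrder κ] [WellFoundedLT κ],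
    Cardinal.beth (α + Ordinal.omega0) ≤ Cardinal.mk κ → ∀ c : (Fin n → κ) → ℕ,
    ∃ X : Set κ, Cardinal.beth α ≤ Cardinal.mk X ∧
      ∃ v, ∀ t : Fin n → κ, StrictMono t → (∀ j, t j ∈ X) → c t = v

/-- HOM from ER -/
def HomAsmStmt : Prop := ERStmt → HomStmt

/-- EM from HOM -/
def EMAsmStmt : Prop := HomStmt → EMStmt

/-! ### back and forth, game -/

/-- BF: back and forth with shrinking tokens. -/
def BFStmt : Prop :=
  ∀ (G : Type u) [Group G] [MetricSpace G] [PolishSpace G] (F : Frame G) (Q Q' : ℕ → ℕ → Prop),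
    (∀ V W, Q V W → ∀ V0, F.B V0 ⊆ F.B V →
      ∃ V' W', F.B V' ⊆ F.B V0 ∧ F.B W' ⊆ F.B W ∧ Q' V' W') →
    (∀ V W, Q' V W → ∀ W0, F.B W0 ⊆ F.B W →
      ∃ V' W', F.B V' ⊆ F.B V ∧ F.B W' ⊆ F.B W0 ∧ Q V' W') →
    ∀ V0 W0, Q V0 W0 → ∃ (g h : G) (V W V' W' : ℕ → ℕ),
      (∀ n, Q (V n) (W n)) ∧ (∀ n, Q' (V' n) (W' n)) ∧
      (∀ O : Set G, IsOpen O → g ∈ O → ∃ N, ∀ n ≥ N, F.B (V n) ⊆ O ∧ F.B (V' n) ⊆ O) ∧
      ∀ O : Set G, IsOpen O → h ∈ O → ∃ N, ∀ n ≥ N, F.B (W n) ⊆ O ∧ F.B (W' n) ⊆ O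

/-- BO from BF -/
def OrbAsmStmt : Prop := BFStmt.{u} → OrbStmt.{u, v}

/-- K from BF -/
def KAsmStmt : Prop := BFStmt.{u} → KStmt.{u, v}

/-- BDD from BO, MS, SIL -/
def BddAsmStmt : Prop := OrbStmt.{u, v} → MeasStmt.{u, v} → SilverStmt → BddStmt.{u, v}

/-- GAME: the abstract model existence game. `tr m p`: position `p` is true in the model `m`;
`ans c p q`: `q` answers the challenge `c` at `p`. -/
def GameStmt : Prop :=
  ∀ (κ Pos Ch M : Type) (labs : Pos → Set κ) (cl : Ch → Set κ) (ans : Ch → Pos → Pos → Prop)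
    (dom : M → Set κ) (tr : M → Pos → Prop) (p0 : Pos),
    (∀ p, (labs p).Finite) → (∀ c, (cl c).Countable) →
    (∀ H : Set κ, H.Countable → {p | labs p ⊆ H}.Countable) →
    (∀ H : Set κ, H.Countable → ∃ m, dom m = H ∧ tr m p0) →
    (∀ m p, tr m p → labs p ⊆ dom m) →
    (∀ m p c, tr m p → cl c ⊆ dom m → ∃ q, ans c p q ∧ tr m q) →
    ∃ Q : Set Pos, p0 ∈ Q ∧ (∀ p ∈ Q, ∃ m, tr m p) ∧ ∀ p ∈ Q, ∀ c, ∃ q ∈ Q, ans c p q

/-- WM from GAME, RK -/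
def WMAsmStmt : Prop := GameStmt → StbMonoStmt.{u, v} → RobStmt.{u, v} → WMStmt.{u, v}

/-- TR from EM -/
def TRAsmStmt : Prop := EMStmt → TRStmt.{u, v}

/-! ### stabilisers -/

/-- PHI -/
def PhiStmt : Prop :=
  ∀ (G : Type u) (Y : Type v) [Group G] [MetricSpace G] [IsTopologicalGroup G]
    [TopologicalSpace Y] [MulAction G Y], RInv G →
    ∀ (C : Ctx G Y) (J : Type) [LinearOrder J] (Δ Δ2 : ℕ → ℕ → Lab J) (φ : Lab J → Lab J)
    (k k' : G),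
    (∀ V V' Z Z', (∀ v ∈ C.B Z, v * k ∈ C.B V) → (∀ v ∈ C.B V', v * k⁻¹ ∈ C.B Z') →
      Δ V V' ≤ Δ2 Z Z') →
    (∀ V V' Z Z', (∀ v ∈ C.B V, v * k⁻¹ ∈ C.B Z) → (∀ v ∈ C.B Z', v * k ∈ C.B V') →
      Δ2 Z Z' ≤ Δ V V') →
    (∀ V V' Z Z', (∀ v ∈ C.B Z, v * k' ∈ C.B V) → (∀ v ∈ C.B V', v * k'⁻¹ ∈ C.B Z') →
      φ (Δ V V') ≤ Δ2 Z Z') →
    (∀ V V' Z Z', (∀ v ∈ C.B V, v * k'⁻¹ ∈ C.B Z) → (∀ v ∈ C.B Z', v * k' ∈ C.B V') →
      Δ2 Z Z' ≤ φ (Δ V V')) →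
    C.Phi Δ φ (k'⁻¹ * k)

/-- B1 from K and PHI -/
def B1AsmStmt : Prop := KStmt.{u, v} → PhiStmt.{u, v} → B1Stmt.{u, v}

/-- F1: products and inverses. -/
def F1Stmt : Prop :=
  ∀ (G : Type u) (Y : Type v) [Group G] [MetricSpace G] [IsTopologicalGroup G]
    [TopologicalSpace Y] [MulAction G Y], RInv G →
    ∀ (C : Ctx G Y) (J : Type) [LinearOrder J] (Δ : ℕ → ℕ → Lab J),
    (∀ (φ ψ : Lab J → Lab J) (π ρ : G), Monotone φ → Monotone ψ → C.Phi Δ φ π → C.Phi Δ ψ ρ →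
      C.Phi Δ (ψ ∘ φ) (π * ρ)) ∧
    ∀ (φ φ' : Lab J → Lab J) (π : G), Monotone φ → Monotone φ' → (∀ l, φ (φ' l) = l) →
      (∀ l, φ' (φ l) = l) → C.Phi Δ φ π → C.Phi Δ φ' π⁻¹

/-- LOC: robust labels determine `φ` locally. -/
def LocStmt : Prop :=
  ∀ (G : Type u) (Y : Type v) [Group G] [MetricSpace G] [IsTopologicalGroup G]
    [TopologicalSpace Y] [MulAction G Y], RInv G →
    ∀ (C : Ctx G Y) (J : Type) [LinearOrder J] (Δ : ℕ → ℕ → Lab J) (D : RD) (ξ : J), D.Valid →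
    (∀ e : ℚ, 0 < e → lb ξ ≤ Δ (C.bt D.i D.r) (C.bt D.j (D.s + e))) →
    Δ (C.bt D.i D.r1) (C.bt D.j (D.s + D.e)) ≤ lb ξ →
    ∀ π : G, ∃ A B : ℕ, ∃ O : Set G, IsOpen O ∧ π ∈ O ∧
      ∀ π' ∈ O, ∀ φ : Lab J → Lab J, C.Phi Δ φ π' → φ (Δ A B) = lb ξ

/-- COL: the rationals with countably many dense colours. -/
def ColStmt : Prop :=
  ∃ c : ℚ → ℕ, (∀ n a b, a < b → ∃ q, a < q ∧ q < b ∧ c q = n) ∧
    ∀ p : Equiv.Perm ℕ, ∃ σ : Gam, ∀ q, c (σ q) = p (c q)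

/-- F from F1, LOC, COL -/
def FAsmStmt : Prop := F1Stmt.{u, v} → LocStmt.{u, v} → ColStmt → FStmt.{u, v}

end Pool.Agent.H71.HV
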